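import Pool.Agent.Helper9K9.DG.Uni

/-!
# The multiples `2 ^ j σ` over the field of rational functions in one variable
-/

set_option autoImplicit false

namespace Pool.Agent.Helper9K9.DG

open WeierstrassCurve.Affine Polynomial

universe u

variable {k : Type u} [Field k] [DecidableEq (RatFunc k)]

lemma two_ratFunc (h2 : (2 : k) ≠ 0) : (2 : RatFunc k) ≠ 0 := by
  have : (2 : RatFunc k) = algebraMap k (RatFunc k) 2 := by rw [map_ofNat]
  rw [this]
  exact (_root_.map_ne_zero _).mpr h2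

lemma three_ratFunc (h3 : (3 : k) ≠ 0) : (3 : RatFunc k) ≠ 0 := by
  have : (3 : RatFunc k) = algebraMap k (RatFunc k) 3 := by rw [map_ofNat]
  rw [this]
  exact (_root_.map_ne_zero _).mpr h3

lemma DT_ne : DT k ≠ 0 := by
  rw [DT_eq]
  exact RatFunc.algebraMap_ne_zero Dp_ne

/-- doubling a point whose first coordinate is given by coprime polynomials -/
lemma dup_point (h2 : (2 : k) ≠ 0) (h3 : (3 : k) ≠ 0) {x y : RatFunc k}
    (hn : (E (DT k)).Nonsingular x y) (a b : k[X]) (hb : b ≠ 0) (hab : IsCoprime a b)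
    (hx : x = algebraMap _ _ a / algebraMap _ _ b) (h : ℕ) (hh : h ≤ max a.natDegree b.natDegree) :
    ∃ (x' y' : RatFunc k) (hn' : (E (DT k)).Nonsingular x' y') (a' b' : k[X]),
      (Point.some x y hn + Point.some x y hn : Pt (DT k)) = Point.some x' y' hn' ∧ b' ≠ 0 ∧
      IsCoprime a' b' ∧ x' = algebraMap _ _ a' / algebraMap _ _ b' ∧
      4 * h ≤ max a'.natDegree b'.natDegree + 9 := by
  have hy : y ≠ 0 := by
    rintro rfl
    have := eqn hn
    apply cube_ne x
    rw [← this]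
    simp
  obtain ⟨x', y', hn', hx', hsum⟩ := double (two_ratFunc h2) hn hy
  obtain ⟨a', b', hb', hcop, hdeg, g, hg, e1, e2⟩ := dup_step h2 h3 a b hb hab h hh
  refine ⟨x', y', hn', a', b', hsum, hb', hcop, ?_, hdeg⟩
  have hbb : algebraMap k[X] (RatFunc k) b ≠ 0 := RatFunc.algebraMap_ne_zero hb
  have hbb' : algebraMap k[X] (RatFunc k) b' ≠ 0 := RatFunc.algebraMap_ne_zero hb'
  have hgg : algebraMap k[X] (RatFunc k) g ≠ 0 := RatFunc.algebraMap_ne_zero hg
  have e1' := congrArg (algebraMap k[X] (RatFunc k)) e1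
  have e2' := congrArg (algebraMap k[X] (RatFunc k)) e2
  simp only [map_mul, map_sub, map_add, map_pow, map_ofNat, ← DT_eq] at e1' e2'
  have h4 : (4 : RatFunc k) ≠ 0 := by
    have : (4 : RatFunc k) = 2 * 2 := by norm_num
    rw [this]
    exact mul_ne_zero (two_ratFunc h2) (two_ratFunc h2)
  have hc := cube_ne x
  rw [hx', eq_div_iff hbb', div_mul_eq_mul_div, div_eq_iff (mul_ne_zero h4 hc)]
  apply mul_left_cancel₀ hgg
  have hxb : x * algebraMap k[X] (RatFunc k) b = algebraMap k[X] (RatFunc k) a := by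
    rw [hx, div_mul_cancel₀ _ hbb]
  set A := algebraMap k[X] (RatFunc k) a
  set B := algebraMap k[X] (RatFunc k) b
  have hB4 : B ^ 4 ≠ 0 := pow_ne_zero _ hbb
  apply mul_left_cancel₀ hB4
  calc B ^ 4 * (algebraMap k[X] (RatFunc k) g * (x * (x ^ 3 - 8 * DT k) * algebraMap k[X] (RatFunc k) b'))
      = (B ^ 4 * (x * (x ^ 3 - 8 * DT k))) * (algebraMap k[X] (RatFunc k) g * algebraMap k[X] (RatFunc k) b') := by ring
    _ = ((x * B) * ((x * B) ^ 3 - 8 * DT k * B ^ 3)) * (4 * B * ((x * B) ^ 3 + DT k * B ^ 3)) := by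
        rw [← e2', hxb]
        rw [show B ^ 4 * (x * (x ^ 3 - 8 * DT k)) = (x * B) * ((x * B) ^ 3 - 8 * DT k * B ^ 3) by ring,
          hxb]
    _ = B ^ 4 * ((algebraMap k[X] (RatFunc k) g * algebraMap k[X] (RatFunc k) a') * (4 * (x ^ 3 + DT k))) := by
        rw [← e1', hxb]
        have : x ^ 3 * B ^ 3 = A ^ 3 := by rw [← mul_pow, hxb]
        linear_combination (-4 * B * A * (A ^ 3 - 8 * DT k * B ^ 3)) * this
    _ = _ := by ring

/-- the section `σ = (-X, X)` -/
noncomputable def sigT (h2 : (2 : k) ≠ 0) (h3 : (3 : k) ≠ 0) : Pt (DT k) :=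
  Point.some (-RatFunc.X) RatFunc.X (ns (two_ratFunc h2) (three_ratFunc h3) DT_ne (by
    rw [DT]; ring))

lemma cop_explicit (h2 : (2 : k) ≠ 0) (h3 : (3 : k) ≠ 0) :
    IsCoprime (X * (9 * X + 8) * (X * (9 * X + 8) ^ 3 - 512 * (1 + X)) : k[X])
      (16 * (X * (9 * X + 8) ^ 3 + 64 * (1 + X))) := by
  have u2 : (C (2 : k)⁻¹ : k[X]) * 2 = 1 := by
    have : (2 : k[X]) = C 2 := by rw [map_ofNat]
    rw [this, ← C_mul, inv_mul_cancel₀ h2, C_1]
  have u3 : (C (3 : k)⁻¹ : k[X]) * 3 = 1 := by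
    have : (3 : k[X]) = C 3 := by rw [map_ofNat]
    rw [this, ← C_mul, inv_mul_cancel₀ h3, C_1]
  have hu2 : IsUnit (2 : k[X]) := IsUnit.of_mul_eq_one_right _ u2
  have hu3 : IsUnit (3 : k[X]) := IsUnit.of_mul_eq_one_right _ u3
  set N : k[X] := X * (9 * X + 8) ^ 3 with hN
  have hu16 : IsUnit (16 : k[X]) := by
    have : (16 : k[X]) = 2 ^ 4 := by norm_num
    rw [this]; exact hu2.pow 4
  rw [isCoprime_mul_unit_left_right hu16]
  have c1 : IsCoprime (X : k[X]) (N + 64 * (1 + X)) := by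
    have hu : IsUnit (64 : k[X]) := by
      have : (64 : k[X]) = 2 ^ 6 := by norm_num
      rw [this]; exact hu2.pow 6
    obtain ⟨v, hv⟩ := hu.exists_left_inv
    refine ⟨-v * ((9 * X + 8) ^ 3 + 64), v, ?_⟩
    rw [hN]
    linear_combination hv
  have c2 : IsCoprime (9 * X + 8 : k[X]) (N + 64 * (1 + X)) := by
    have hu : IsUnit (64 : k[X]) := by
      have : (64 : k[X]) = 2 ^ 6 := by norm_num
      rw [this]; exact hu2.pow 6
    obtain ⟨v, hv⟩ := hu.exists_left_inv
    refine ⟨-v * (9 * (X * (9 * X + 8) ^ 2) + 64), 9 * v, ?_⟩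
    rw [hN]
    linear_combination hv
  have c3 : IsCoprime (N - 512 * (1 + X)) (N + 64 * (1 + X)) := by
    have hu : IsUnit (576 : k[X]) := by
      have : (576 : k[X]) = 2 ^ 6 * 3 ^ 2 := by norm_num
      rw [this]; exact (hu2.pow 6).mul (hu3.pow 2)
    obtain ⟨v, hv⟩ := hu.exists_left_inv
    have c4 : IsCoprime (1 + X : k[X]) (N + 64 * (1 + X)) := by
      have : N = 1 + (1 + X) * (729 * X ^ 3 + 1215 * X ^ 2 + 513 * X - 1) := by
        rw [hN]; ring
      refine ⟨-(729 * X ^ 3 + 1215 * X ^ 2 + 513 * X - 1) - 64, 1, ?_⟩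
      rw [this]
      ring
    obtain ⟨p, q, hpq⟩ := c4
    refine ⟨-v * p, v * p + q, ?_⟩
    linear_combination hpq + (1 + X) * p * hv
  exact (c1.mul_left c2).mul_left c3

lemma natDegree_explicit (h3 : (3 : k) ≠ 0) :
    (X * (9 * X + 8) * (X * (9 * X + 8) ^ 3 - 512 * (1 + X)) : k[X]).natDegree = 6 := by
  have h9 : (9 : k) ^ 4 ≠ 0 := by
    have : (9 : k) = 3 ^ 2 := by norm_num
    rw [this]
    exact pow_ne_zero _ (pow_ne_zero _ h3)
  have e : (X * (9 * X + 8) * (X * (9 * X + 8) ^ 3 - 512 * (1 + X)) : k[X]) =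
      C ((9 : k) ^ 4) * X ^ 6 + (X * (9 * X + 8) * (X * (9 * X + 8) ^ 3 - 512 * (1 + X)) -
        9 ^ 4 * X ^ 6) := by
    simp only [map_pow, map_ofNat]
    ring
  have hdd : (C ((9 : k) ^ 4) * X ^ 6 : k[X]).natDegree = 6 := natDegree_C_mul_X_pow _ _ h9
  rw [e]
  refine (natDegree_add_eq_left_of_natDegree_lt ?_).trans hdd
  rw [hdd]
  have e2 : (X * (9 * X + 8) * (X * (9 * X + 8) ^ 3 - 512 * (1 + X)) - 9 ^ 4 * X ^ 6 : k[X]) =
     (C 23328 * X ^ 5 + C 31104 * X ^ 4 + C 18432 * X ^ 3 + C 4096 * X ^ 2) -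
       (C 4608 * X ^ 3 + C 8704 * X ^ 2 + C 4096 * X) := by
    simp only [map_ofNat]
    ring
  rw [e2]
  refine lt_of_le_of_lt (b := 5) ?_ (by norm_num)
  compute_degree

/-- **The heights of the multiples `2 ^ j σ` grow like `4 ^ j`.** -/
theorem chain (h2 : (2 : k) ≠ 0) (h3 : (3 : k) ≠ 0) (j : ℕ) :
    ∃ (x y : RatFunc k) (hn : (E (DT k)).Nonsingular x y) (a b : k[X]),
      (2 ^ (j + 2)) • sigT h2 h3 = Point.some x y hn ∧ b ≠ 0 ∧ IsCoprime a b ∧
      x = algebraMap _ _ a / algebraMap _ _ b ∧ 3 + 3 * 4 ^ j ≤ max a.natDegree b.natDegree := by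
  induction j with
  | zero =>
    have t2 := two_ratFunc h2
    have hX : (RatFunc.X : RatFunc k) ≠ 0 := RatFunc.X_ne_zero
    obtain ⟨x₁, y₁, hn₁, hx₁, hs₁⟩ := double t2 (ns (two_ratFunc h2) (three_ratFunc h3) DT_ne
      (show (RatFunc.X : RatFunc k) ^ 2 = (-RatFunc.X) ^ 3 + DT k by rw [DT]; ring)) hX
    have hy₁ : y₁ ≠ 0 := by
      rintro rfl
      have := eqn hn₁
      apply cube_ne x₁
      rw [← this]
      simp
    obtain ⟨x₂, y₂, hn₂, hx₂, hs₂⟩ := double t2 hn₁ hy₁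
    refine ⟨x₂, y₂, hn₂, _, _, ?_, ?_, cop_explicit h2 h3, ?_, ?_⟩
    · have e : (2 ^ (0 + 2)) • sigT h2 h3 = (sigT h2 h3 + sigT h2 h3) + (sigT h2 h3 + sigT h2 h3) := by
        norm_num
        abel
      rw [e]
      have e1 : sigT h2 h3 + sigT h2 h3 = Point.some x₁ y₁ hn₁ := hs₁
      rw [e1, hs₂]
    · have hu : (16 : k[X]) ≠ 0 := by
        have : (16 : k[X]) = C (2 ^ 4) := by
          rw [C_pow, map_ofNat]; norm_num
        rw [this]
        exact C_ne_zero.mpr (pow_ne_zero _ h2)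
      refine mul_ne_zero hu ?_
      intro h0
      have h1 := congrArg (fun p : k[X] => p.eval (-1)) h0
      simp at h1
      have h8 : (-9 + 8 : k) = -1 := by norm_num
      rw [h8] at h1
      exact one_ne_zero (neg_eq_zero.mp h1)
    · have h4 : (4 : RatFunc k) ≠ 0 := by
        have : (4 : RatFunc k) = 2 * 2 := by norm_num
        rw [this]
        exact mul_ne_zero t2 t2
      set T : RatFunc k := RatFunc.X with hT
      have hx1' : x₁ = T * (9 * T + 8) / 4 := by
        rw [hx₁, DT, ← hT]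
        have e1 : (-T) ^ 3 + T ^ 2 * (1 + T) = T ^ 2 := by ring
        rw [e1]
        field_simp
        ring
      have hc := cube_ne x₁
      have hb0 : T * (9 * T + 8) ^ 3 + 64 * (1 + T) ≠ 0 := by
        intro h0
        apply hc
        have h64 : (64 : RatFunc k) ≠ 0 := by
          have : (64 : RatFunc k) = 2 ^ 6 := by norm_num
          rw [this]
          exact pow_ne_zero _ t2
        have e3 : x₁ ^ 3 + DT k = T ^ 2 * (T * (9 * T + 8) ^ 3 + 64 * (1 + T)) / 64 := by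
          rw [hx1', DT, ← hT]
          field_simp
          ring
        rw [e3, h0]
        simp
      have h16 : (16 : RatFunc k) ≠ 0 := by
        have : (16 : RatFunc k) = 2 ^ 4 := by norm_num
        rw [this]
        exact pow_ne_zero _ t2
      simp only [map_mul, map_add, map_sub, map_pow, map_ofNat, map_one, RatFunc.algebraMap_X]
      rw [← hT, hx₂, div_eq_div_iff (mul_ne_zero h4 hc) (mul_ne_zero h16 hb0), hx1', DT, ← hT]
      field_simp
      ring
    · refine le_max_of_le_left ?_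
      rw [natDegree_explicit h3]
      norm_num
  | succ j ih =>
    obtain ⟨x, y, hn, a, b, h1, hb, hab, hx, hdeg⟩ := ih
    obtain ⟨x', y', hn', a', b', hs, hb', hab', hx', hdeg'⟩ :=
      dup_point h2 h3 hn a b hb hab hx _ hdeg
    refine ⟨x', y', hn', a', b', ?_, hb', hab', hx', ?_⟩
    · have e : (2 ^ (j + 1 + 2)) • sigT h2 h3 =
          (2 ^ (j + 2)) • sigT h2 h3 + (2 ^ (j + 2)) • sigT h2 h3 := by
        rw [← add_nsmul]
        congr 1
        ring
      rw [e, h1, hs]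
    · rw [pow_succ]
      omega

end Pool.Agent.Helper9K9.DG
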