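import Mathlib

/-!
# Heights of rational functions in one variable under composition
-/

set_option autoImplicit false

namespace Pool.Agent.Helper9K9.DG

open Polynomial IntermediateField

universe u

variable {k : Type u} [Field k]

/-- the height of a rational function in one variable -/
noncomputable def rht (R : RatFunc k) : ℕ := max R.num.natDegree R.denom.natDegree

lemma rht_div_le (p q : k[X]) (hq : q ≠ 0) (B : ℕ) (hp : p.natDegree ≤ B) (hqB : q.natDegree ≤ B) :
    rht (algebraMap k[X] (RatFunc k) p / algebraMap k[X] (RatFunc k) q) ≤ B := by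
  apply max_le
  · by_cases hp0 : p = 0
    · subst hp0
      simp
    · exact (natDegree_le_of_dvd (RatFunc.num_div_dvd p hq) hp0).trans hp
  · exact (natDegree_le_of_dvd (RatFunc.denom_div_dvd p q) hq).trans hqB

lemma le_rht_div (p q : k[X]) (hq : q ≠ 0) (hcop : IsCoprime p q) :
    max p.natDegree q.natDegree ≤
      rht (algebraMap k[X] (RatFunc k) p / algebraMap k[X] (RatFunc k) q) := by
  set x : RatFunc k := algebraMap k[X] (RatFunc k) p / algebraMap k[X] (RatFunc k) q
    with hx
  have hd : x.denom ≠ 0 := x.denom_ne_zero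
  have heq : x.num * q = p * x.denom := by
    apply RatFunc.algebraMap_injective k
    rw [map_mul, map_mul]
    have h1 := RatFunc.num_div_denom x
    have hQ' : algebraMap k[X] (RatFunc k) q ≠ 0 := RatFunc.algebraMap_ne_zero hq
    have hd' : algebraMap k[X] (RatFunc k) x.denom ≠ 0 := RatFunc.algebraMap_ne_zero hd
    rw [← div_eq_div_iff hd' hQ', h1]
  apply max_le
  · by_cases hn : x.num = 0
    · have hp : p = 0 := by
        rw [hn, zero_mul] at heq
        exact (mul_eq_zero.mp heq.symm).resolve_right hd
      simp [hp]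
    · refine (natDegree_le_of_dvd ?_ hn).trans (le_max_left _ _)
      exact hcop.dvd_of_dvd_mul_right (Dvd.intro _ heq.symm)
  · refine (natDegree_le_of_dvd ?_ hd).trans (le_max_right _ _)
    exact hcop.symm.dvd_of_dvd_mul_left (Dvd.intro_left _ heq)

/-- composition with a nonconstant rational function does not decrease the height -/
theorem comp_height (μ : RatFunc k) (hμ : ¬ ∃ c, μ = RatFunc.C c) :
    ∃ Ψ : RatFunc k →ₐ[k] RatFunc k, Ψ RatFunc.X = μ ∧ ∀ R, rht R ≤ rht (Ψ R) := by
  have htr : Transcendental k μ := μ.transcendental_of_ne_C hμ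
  let Ψ : RatFunc k →ₐ[k] RatFunc k :=
    (IntermediateField.val (IntermediateField.adjoin k {μ})).comp
      (RatFunc.algEquivOfTranscendental μ htr).toAlgHom
  have hX : Ψ RatFunc.X = μ := RatFunc.algEquivOfTranscendental_X μ htr
  refine ⟨Ψ, hX, fun R => ?_⟩
  have hrange : (⊤ : IntermediateField k (RatFunc k)).map Ψ = IntermediateField.adjoin k {μ} := by
    apply SetLike.ext
    intro x
    constructor
    · rintro ⟨y, -, rfl⟩
      exact (RatFunc.algEquivOfTranscendental μ htr y).2
    · intro hx
      refine ⟨(RatFunc.algEquivOfTranscendental μ htr).symm ⟨x, hx⟩, trivial, ?_⟩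
      show ((RatFunc.algEquivOfTranscendental μ htr)
        ((RatFunc.algEquivOfTranscendental μ htr).symm ⟨x, hx⟩) : RatFunc k) = x
      rw [AlgEquiv.apply_symm_apply]
  have hmap : (IntermediateField.adjoin k {R}).map Ψ = IntermediateField.adjoin k {Ψ R} := by
    rw [IntermediateField.adjoin_map]
    simp
  have h1 := IntermediateField.relfinrank_map_map (IntermediateField.adjoin k {R})
    (⊤ : IntermediateField k (RatFunc k)) Ψ
  rw [IntermediateField.relfinrank_top_right, RatFunc.finrank_eq_max_natDegree, hmap, hrange] at h1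
  have hle : IntermediateField.adjoin k {Ψ R} ≤ IntermediateField.adjoin k {μ} := by
    rw [← hrange, ← hmap]
    exact IntermediateField.map_mono Ψ le_top
  have h2 := IntermediateField.relfinrank_mul_finrank_top hle
  rw [h1, RatFunc.finrank_eq_max_natDegree, RatFunc.finrank_eq_max_natDegree] at h2
  have h3 : 1 ≤ max μ.num.natDegree μ.denom.natDegree := by
    by_contra hcon
    apply hμ
    exact (RatFunc.eq_C_iff μ).mpr (by omega)
  show max R.num.natDegree R.denom.natDegree ≤ max (Ψ R).num.natDegree (Ψ R).denom.natDegree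
  rw [← h2]
  exact Nat.le_mul_of_pos_right _ h3

end Pool.Agent.Helper9K9.DG
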