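import Mathlib

/-!
# The curves `y ^ 2 = x ^ 3 + D`
-/

set_option autoImplicit false

namespace Pool.Agent.Helper9K9.DG

open WeierstrassCurve.Affine

universe u v



variable {F : Type u} {F' : Type v} [Field F] [Field F'] [DecidableEq F] [DecidableEq F']

/-- the curve `y ^ 2 = x ^ 3 + D` -/
def E (D : F) : WeierstrassCurve.Affine F := ⟨0, 0, 0, 0, D⟩

/-- points -/
abbrev Pt (D : F) : Type u := (E D).Point

lemma eqn_iff {D x y : F} : (E D).Equation x y ↔ y ^ 2 = x ^ 3 + D := by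
  rw [equation_iff]
  simp [E]

lemma ns {D x y : F} (h2 : (2 : F) ≠ 0) (h3 : (3 : F) ≠ 0) (hD : D ≠ 0) (h : y ^ 2 = x ^ 3 + D) :
    (E D).Nonsingular x y := by
  rw [nonsingular_iff']
  refine ⟨eqn_iff.mpr h, ?_⟩
  simp only [E]
  by_contra hcon
  push Not at hcon
  obtain ⟨h4, h5⟩ := hcon
  have hy : y = 0 := by
    have : 2 * y = 0 := by linear_combination h5
    exact (mul_eq_zero.mp this).resolve_left h2
  have hx : x = 0 := by
    have : 3 * x ^ 2 = 0 := by linear_combination -h4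
    exact pow_eq_zero_iff (two_ne_zero) |>.mp ((mul_eq_zero.mp this).resolve_left h3)
  apply hD
  rw [hy, hx] at h
  linear_combination -h

lemma eqn {D x y : F} (h : (E D).Nonsingular x y) : y ^ 2 = x ^ 3 + D := eqn_iff.mp h.1

lemma negY_eq {D : F} (x y : F) : (E D).negY x y = - y := by
  simp [negY, E]

lemma addX_eq {D : F} (x₁ x₂ l : F) : (E D).addX x₁ x₂ l = l ^ 2 - x₁ - x₂ := by
  simp [addX, E]

lemma addY_eq {D : F} (x₁ x₂ y₁ l : F) :
    (E D).addY x₁ x₂ y₁ l = - (l * (l ^ 2 - x₁ - x₂ - x₁) + y₁) := by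
  simp only [addY, negAddY, negY, addX, E]
  ring

/-- the sum of two points -/
lemma add_cases {D : F} {x₁ y₁ x₂ y₂ : F} (h₁ : (E D).Nonsingular x₁ y₁)
    (h₂ : (E D).Nonsingular x₂ y₂) :
    (Point.some x₁ y₁ h₁ + Point.some x₂ y₂ h₂ : Pt D) = 0 ∨
    ∃ (l x₃ y₃ : F) (h₃ : (E D).Nonsingular x₃ y₃),
      (l = (y₁ - y₂) / (x₁ - x₂) ∨ l = 3 * x₁ ^ 2 / (2 * y₁)) ∧ x₃ = l ^ 2 - x₁ - x₂ ∧
      y₃ = - (l * (x₃ - x₁) + y₁) ∧
      (Point.some x₁ y₁ h₁ + Point.some x₂ y₂ h₂ : Pt D) = Point.some x₃ y₃ h₃ := by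
  by_cases hxy : x₁ = x₂ ∧ y₁ = (E D).negY x₂ y₂
  · left
    exact Point.add_of_Y_eq hxy.1 hxy.2
  · right
    refine ⟨(E D).slope x₁ x₂ y₁ y₂, _, _, nonsingular_add h₁ h₂ hxy, ?_, addX_eq _ _ _, ?_,
      Point.add_some hxy⟩
    · by_cases hx : x₁ = x₂
      · right
        have hy : y₁ ≠ (E D).negY x₂ y₂ := fun h => hxy ⟨hx, h⟩
        rw [slope_of_Y_ne hx hy, negY_eq]
        simp only [E]
        congr 1
        · ring
        · ring
      · left
        exact slope_of_X_ne hx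
    · rw [addY_eq, addX_eq]

/-- duplication -/
lemma double {D : F} (h2 : (2 : F) ≠ 0) {x y : F} (h : (E D).Nonsingular x y) (hy : y ≠ 0) :
    ∃ (x' y' : F) (h' : (E D).Nonsingular x' y'),
      x' = x * (x ^ 3 - 8 * D) / (4 * (x ^ 3 + D)) ∧
      (Point.some x y h + Point.some x y h : Pt D) = Point.some x' y' h' := by
  have hne : ¬ (x = x ∧ y = (E D).negY x y) := by
    rintro ⟨-, h1⟩
    rw [negY_eq] at h1
    apply hy
    have : 2 * y = 0 := by linear_combination h1
    exact (mul_eq_zero.mp this).resolve_left h2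
  refine ⟨_, _, nonsingular_add h h hne, ?_, Point.add_some hne⟩
  have hy' : y ≠ (E D).negY x y := fun h1 => hne ⟨rfl, h1⟩
  rw [addX_eq, slope_of_Y_ne rfl hy', negY_eq]
  have he := eqn h
  have h4 : (4 : F) ≠ 0 := by
    have : (4 : F) = 2 * 2 := by norm_num
    rw [this]
    exact mul_ne_zero h2 h2
  rw [← he]
  have hD : D = y ^ 2 - x ^ 3 := by linear_combination -he
  simp only [E]
  rw [hD]
  have : y - -y = 2 * y := by ring
  rw [this]
  field_simp
  ring

/-- the map on points induced by a homomorphism of fields -/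
noncomputable def mapPt (D : F) (φ : F →+* F') (D' : F') (hD : φ D = D') : Pt D →+ Pt D' where
  toFun P := match P with
    | .zero => 0
    | .some x y h => .some (φ x) (φ y) (by
        subst hD
        have h1 := h
        rw [nonsingular_iff'] at h1 ⊢
        obtain ⟨h2, h3⟩ := h1
        refine ⟨?_, ?_⟩
        · rw [eqn_iff] at h2 ⊢
          rw [← map_pow, ← map_pow, h2, map_add]
        · simp only [E] at h3 ⊢
          rcases h3 with h3 | h3
          · left
            intro h4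
            apply h3
            apply φ.injective
            rw [map_zero, ← h4]
            simp only [map_sub, map_add, map_mul, map_zero, map_pow, map_ofNat]
          · right
            intro h4
            apply h3
            apply φ.injective
            rw [map_zero, ← h4]
            simp only [map_add, map_mul, map_zero, map_ofNat])
  map_zero' := rfl
  map_add' := by
    subst hD
    have hE : (E D).map φ = E (φ D) := by
      simp [E, WeierstrassCurve.map]
    rintro (_ | ⟨x₁, y₁, h₁⟩) (_ | ⟨x₂, y₂, h₂⟩)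
    any_goals rfl
    by_cases hxy : x₁ = x₂ ∧ y₁ = (E D).negY x₂ y₂
    · have hxy' : φ x₁ = φ x₂ ∧ φ y₁ = (E (φ D)).negY (φ x₂) (φ y₂) := by
        refine ⟨by rw [hxy.1], ?_⟩
        rw [negY_eq, hxy.2, negY_eq, map_neg]
      rw [Point.add_of_Y_eq hxy.1 hxy.2, Point.add_of_Y_eq hxy'.1 hxy'.2]
    · have hxy' : ¬ (φ x₁ = φ x₂ ∧ φ y₁ = (E (φ D)).negY (φ x₂) (φ y₂)) := by
        rintro ⟨h1, h2⟩
        apply hxy
        refine ⟨φ.injective h1, φ.injective ?_⟩
        rw [h2, negY_eq, negY_eq, map_neg]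
      rw [Point.add_some hxy, Point.add_some hxy']
      have hs : (E (φ D)).slope (φ x₁) (φ x₂) (φ y₁) (φ y₂) = φ ((E D).slope x₁ x₂ y₁ y₂) := by
        rw [← hE]
        exact map_slope φ x₁ x₂ y₁ y₂
      rw [Point.some.injEq]
      refine ⟨?_, ?_⟩
      · rw [hs, addX_eq, addX_eq]
        simp
      · rw [hs, addY_eq, addY_eq]
        simp

lemma mapPt_some {D : F} {φ : F →+* F'} {D' : F'} {hD : φ D = D'} {x y : F}
    (h : (E D).Nonsingular x y) :
    ∃ h' : (E D').Nonsingular (φ x) (φ y), mapPt D φ D' hD (.some x y h) = .some (φ x) (φ y) h' :=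
  ⟨_, rfl⟩

lemma mapPt_eq_zero {D : F} {φ : F →+* F'} {D' : F'} {hD : φ D = D'} {P : Pt D}
    (h : mapPt D φ D' hD P = 0) : P = 0 := by
  cases P with
  | zero => rfl
  | some x y hP =>
    exfalso
    obtain ⟨h', h1⟩ := mapPt_some (D := D) (φ := φ) (D' := D') (hD := hD) hP
    rw [h1] at h
    exact Point.some_ne_zero _ h

end Pool.Agent.Helper9K9.DG
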