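import Mathlib

/-!
# Generators and transcendence degree of fields of rational functions
-/

set_option autoImplicit false

namespace Pool.Agent.Helper9K9.DG

open MvPolynomial Cardinal

universe u

variable {K : Type u} [Field K] {N : ℕ}

/-- the field of rational functions in `N` variables -/
abbrev FF (K : Type u) [Field K] (N : ℕ) : Type u := FractionRing (MvPolynomial (Fin N) K)

/-- the generators of the field of rational functions -/
noncomputable def gen (K : Type u) [Field K] (N : ℕ) (i : Fin N) : FF K N :=
  algebraMap (MvPolynomial (Fin N) K) (FF K N) (X i)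

lemma aeval_gen (p : MvPolynomial (Fin N) K) :
    aeval (gen K N) p = algebraMap (MvPolynomial (Fin N) K) (FF K N) p := by
  have h := MvPolynomial.aeval_algebraMap_apply (R := K) (FF K N)
    (fun i => (X i : MvPolynomial (Fin N) K)) p
  have h2 : aeval (fun i => (X i : MvPolynomial (Fin N) K)) p = p := MvPolynomial.aeval_X_left_apply p
  rw [h2] at h
  exact h

lemma gen_indep : AlgebraicIndependent K (gen K N) := by
  rw [algebraicIndependent_iff]
  intro p hp
  rw [aeval_gen] at hp
  exact (IsFractionRing.injective (MvPolynomial (Fin N) K) (FF K N)) (by rw [hp, map_zero])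

lemma le_trdeg : ((N : ℕ) : Cardinal.{u}) ≤ Algebra.trdeg K (FF K N) := by
  have h := (gen_indep (K := K) (N := N)).lift_cardinalMk_le_trdeg
  simpa using h

lemma gen_adjoin : IntermediateField.adjoin K (Set.range (gen K N)) = ⊤ := by
  rw [eq_top_iff]
  intro z _
  obtain ⟨p, q, hq, rfl⟩ := IsFractionRing.div_surjective (A := MvPolynomial (Fin N) K) z
  have h6 : ∀ p : MvPolynomial (Fin N) K, algebraMap (MvPolynomial (Fin N) K) (FF K N) p ∈
      IntermediateField.adjoin K (Set.range (gen K N)) := by
    intro p
    induction p using MvPolynomial.induction_on with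
    | C a =>
      have : algebraMap (MvPolynomial (Fin N) K) (FF K N) (C a) = algebraMap K (FF K N) a := by
        rw [← MvPolynomial.algebraMap_eq, ← IsScalarTower.algebraMap_apply]
      rw [this]
      exact IntermediateField.algebraMap_mem _ _
    | add p q hp hq => rw [map_add]; exact add_mem hp hq
    | mul_X p i hp =>
      rw [map_mul]
      exact mul_mem hp (IntermediateField.subset_adjoin K _ ⟨i, rfl⟩)
  exact div_mem (h6 p) (h6 q)

lemma algebraic_of_adjoin {S : Set (FF K N)} (h : IntermediateField.adjoin K S = ⊤) :
    Algebra.IsAlgebraic (Algebra.adjoin K S) (FF K N) := by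
  rw [← IntermediateField.isAlgebraic_adjoin_iff_top, h, Algebra.isAlgebraic_iff_isIntegral]
  exact Algebra.isIntegral_of_surjective IntermediateField.topEquiv.surjective

/-- generators of the field of rational functions are algebraically independent -/
lemma indep_of_adjoin {y : Fin N → FF K N} (h : IntermediateField.adjoin K (Set.range y) = ⊤) :
    AlgebraicIndependent K y := by
  have := algebraic_of_adjoin h
  have hb : IsTranscendenceBasis K y := by
    apply Algebra.IsAlgebraic.isTranscendenceBasis_of_lift_le_trdeg_of_finite
    simpa using le_trdeg (K := K) (N := N)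
  exact hb.1

/-- the algebraic closure of a field generated by two elements does not contain three algebraically
independent elements -/
lemma exists_subfield (a b : FF K 3) : ∃ M : Subfield (FF K 3),
    (∀ c : K, algebraMap K (FF K 3) c ∈ M) ∧ a ∈ M ∧ b ∈ M ∧
    (∀ (x : FF K 3) (n : ℕ), 0 < n → x ^ n ∈ M → x ∈ M) ∧ ¬ (∀ i, gen K 3 i ∈ M) := by
  let F := IntermediateField.adjoin K {a, b}
  let M := algebraicClosure F (FF K 3)
  have hF : ∀ x ∈ F, x ∈ M := fun x hx => M.algebraMap_mem ⟨x, hx⟩
  refine ⟨M.toSubfield, ?_, ?_, ?_, ?_, ?_⟩
  · intro c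
    exact hF _ (F.algebraMap_mem c)
  · exact hF _ (IntermediateField.subset_adjoin K _ (by simp))
  · exact hF _ (IntermediateField.subset_adjoin K _ (by simp))
  · intro x n hn hx
    have h1 : IsIntegral F (x ^ n) := hx
    exact (IsIntegral.of_pow hn h1 : IsIntegral F x)
  · intro hall
    have htop : M.restrictScalars K = ⊤ := by
      rw [eq_top_iff, ← gen_adjoin, IntermediateField.adjoin_le_iff]
      rintro _ ⟨i, rfl⟩
      exact hall i
    have halg : Algebra.IsAlgebraic F (FF K 3) := by
      rw [← algebraicClosure.eq_top_iff, eq_top_iff]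
      intro x _
      have : x ∈ M.restrictScalars K := by rw [htop]; trivial
      exact this
    have halg' : Algebra.IsAlgebraic (Algebra.adjoin K ({a, b} : Set (FF K 3))) (FF K 3) := by
      rw [← IntermediateField.isAlgebraic_adjoin_iff_top]
      exact halg
    have h1 := Algebra.IsAlgebraic.trdeg_le_cardinalMk (R := K) (A := FF K 3) ({a, b} : Set (FF K 3))
    have h2 : #({a, b} : Set (FF K 3)) ≤ 2 := by
      exact Cardinal.mk_insert_le.trans (by simp; norm_num)
    have h3 := (le_trdeg (K := K) (N := 3)).trans (h1.trans h2)
    have : (3 : ℕ) ≤ 2 := by exact_mod_cast h3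
    omega

end Pool.Agent.Helper9K9.DG
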