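import Pool.Agent.Helper9K9.DG.Ht
import Pool.Agent.Helper9K9.DG.Fld
import Pool.Agent.Helper993.CS.Z2

/-!
# Homogeneous tuples and self-maps of the field of rational functions
-/

set_option autoImplicit false

namespace Pool.Agent.Helper9K9.DG

open MvPolynomial

open Pool.Agent.Helper993.CS (iter RedDeg iter_hom redDeg_exists red_assoc factor_hom)

universe u

variable {K : Type u} [Field K] {N : ℕ}

/-- dehomogenisation -/
noncomputable def dh (K : Type u) [Field K] (N : ℕ) :
    MvPolynomial (Fin (N + 1)) K →ₐ[K] MvPolynomial (Fin N) K :=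
  aeval (Fin.cons 1 X : Fin (N + 1) → MvPolynomial (Fin N) K)

lemma dh_monomial (s : Fin (N + 1) →₀ ℕ) (c : K) :
    dh K N (monomial s c) = monomial (Finsupp.tail s) c := by
  rw [dh, aeval_monomial, Finsupp.prod_fintype _ _ (by simp), Fin.prod_univ_succ]
  simp only [Fin.cons_zero, Fin.cons_succ, one_pow, one_mul]
  rw [monomial_eq, Finsupp.prod_fintype _ _ (by simp)]
  rfl

lemma degree_tail (s : Fin (N + 1) →₀ ℕ) : s.degree = s 0 + (Finsupp.tail s).degree := by
  rw [Finsupp.degree_eq_sum, Finsupp.degree_eq_sum, Fin.sum_univ_succ]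
  rfl

lemma dh_sum (P : MvPolynomial (Fin (N + 1)) K) :
    dh K N P = ∑ s ∈ P.support, monomial (Finsupp.tail s) (coeff s P) := by
  conv_lhs => rw [P.as_sum]
  rw [map_sum]
  exact Finset.sum_congr rfl fun s _ => dh_monomial _ _

lemma dh_inj {P : MvPolynomial (Fin (N + 1)) K} {e : ℕ} (hP : P.IsHomogeneous e)
    (h0 : dh K N P = 0) : P = 0 := by
  classical
  by_contra hne
  obtain ⟨s, hs⟩ := MvPolynomial.ne_zero_iff.mp hne
  apply hs
  have hdeg : ∀ t, coeff t P ≠ 0 → t.degree = e := by
    intro t ht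
    have := hP ht
    rw [Finsupp.degree_eq_weight_one]
    exact this
  have h1 : coeff (Finsupp.tail s) (dh K N P) = coeff s P := by
    rw [dh_sum, coeff_sum]
    rw [Finset.sum_eq_single s]
    · rw [coeff_monomial, if_pos rfl]
    · intro t ht hts
      rw [coeff_monomial, if_neg]
      intro heq
      apply hts
      have ht' : coeff t P ≠ 0 := by rwa [mem_support_iff] at ht
      have e1 := hdeg t ht'
      have e2 := hdeg s hs
      rw [degree_tail] at e1 e2
      rw [heq] at e1
      have e3 : t 0 = s 0 := by omega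
      ext i
      refine Fin.cases e3 (fun j => ?_) i
      exact DFunLike.congr_fun heq j
    · intro h
      rw [mem_support_iff, not_not] at h
      exact absurd h hs
  rw [← h1, h0, coeff_zero]

lemma dh_totalDegree (P : MvPolynomial (Fin (N + 1)) K) :
    (dh K N P).totalDegree ≤ P.totalDegree := by
  rw [dh_sum]
  refine (totalDegree_finsetSum _ _).trans (Finset.sup_le fun s hs => ?_)
  refine (totalDegree_monomial_le _ _).trans ?_
  have h1 := le_totalDegree hs
  have h2 : s.degree ≤ P.totalDegree := h1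
  rw [degree_tail] at h2
  have : (Finsupp.tail s).degree ≤ P.totalDegree := by omega
  exact this

lemma homogenize (Q : MvPolynomial (Fin N) K) (m : ℕ) (hm : Q.totalDegree ≤ m) :
    ∃ R : MvPolynomial (Fin (N + 1)) K, R.IsHomogeneous m ∧ dh K N R = Q := by
  refine ⟨∑ s ∈ Q.support, monomial (Finsupp.cons (m - s.degree) s) (coeff s Q), ?_, ?_⟩
  · apply IsHomogeneous.sum
    intro s hs
    apply isHomogeneous_monomial
    have h1 : s.degree ≤ Q.totalDegree := le_totalDegree hs
    rw [Finsupp.degree_eq_sum, Fin.sum_univ_succ]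
    simp only [Finsupp.cons_zero, Finsupp.cons_succ]
    rw [← Finsupp.degree_eq_sum]
    omega
  · rw [map_sum]
    conv_rhs => rw [Q.as_sum]
    apply Finset.sum_congr rfl
    intro s hs
    rw [dh_monomial]
    rw [Finsupp.tail_cons]

/-- evaluation at `(1, x_1, …, x_N)` -/
noncomputable def ev (K : Type u) [Field K] (N : ℕ) : MvPolynomial (Fin (N + 1)) K →ₐ[K] FF K N :=
  aeval (Fin.cons 1 (gen K N) : Fin (N + 1) → FF K N)

lemma ev_eq (P : MvPolynomial (Fin (N + 1)) K) :
    ev K N P = algebraMap (MvPolynomial (Fin N) K) (FF K N) (dh K N P) := by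
  rw [← aeval_gen, dh, ev, ← AlgHom.comp_apply, comp_aeval]
  congr 2
  funext i
  refine Fin.cases ?_ (fun j => ?_) i
  · simp
  · simp

lemma ev_ne {P : MvPolynomial (Fin (N + 1)) K} {e : ℕ} (hP : P.IsHomogeneous e)
    (h0 : ev K N P = 0) : P = 0 := by
  rw [ev_eq] at h0
  exact dh_inj hP ((IsFractionRing.injective (MvPolynomial (Fin N) K) (FF K N))
    (by rw [h0, map_zero]))

lemma ht_div {A B : MvPolynomial (Fin (N + 1)) K} {d : ℕ} (hA : A.IsHomogeneous d)
    (hB : B.IsHomogeneous d) (hB0 : B ≠ 0) : HtLe (ev K N A / ev K N B) d := by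
  refine ⟨dh K N A, dh K N B, fun h => hB0 (dh_inj hB h), ?_, ?_, ?_⟩
  · exact (dh_totalDegree A).trans (hA.totalDegree_le)
  · exact (dh_totalDegree B).trans (hB.totalDegree_le)
  · rw [ev_eq, ev_eq]

/-- algebraically independent rational functions are given by an algebraically independent tuple
of forms of the same degree, without common factors -/
theorem proj_tuple (i₀ : Fin N) (y : Fin N → FF K N) (hy : AlgebraicIndependent K y) :
    ∃ (d : ℕ) (f : Fin (N + 1) → MvPolynomial (Fin (N + 1)) K),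
      (∀ i, (f i).IsHomogeneous d) ∧ (∀ q, (∀ i, q ∣ f i) → IsUnit q) ∧
      AlgebraicIndependent K f ∧ ev K N (f 0) ≠ 0 ∧
      ∀ i : Fin N, y i * ev K N (f 0) = ev K N (f i.succ) := by
  obtain ⟨b, hb⟩ := IsLocalization.exist_integer_multiples_of_finite
    (nonZeroDivisors (MvPolynomial (Fin N) K)) y
  choose a ha using hb
  have hb0 : (b : MvPolynomial (Fin N) K) ≠ 0 := nonZeroDivisors.ne_zero b.2
  set m := max (b : MvPolynomial (Fin N) K).totalDegree (Finset.univ.sup fun i => (a i).totalDegree)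
    with hm
  obtain ⟨R₀, hR₀, hR₀'⟩ := homogenize (b : MvPolynomial (Fin N) K) m (le_max_left _ _)
  have hRi : ∀ i, ∃ R : MvPolynomial (Fin (N + 1)) K, R.IsHomogeneous m ∧ dh K N R = a i := by
    intro i
    apply homogenize
    exact (Finset.le_sup (f := fun i => (a i).totalDegree) (Finset.mem_univ i)).trans
      (le_max_right _ _)
  choose R hR hR' using hRi
  have hR₀0 : R₀ ≠ 0 := by
    rintro rfl
    rw [map_zero] at hR₀'
    exact hb0 hR₀'.symm
  let P : Fin (N + 1) → MvPolynomial (Fin (N + 1)) K := Fin.cons R₀ R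
  have hP : ∀ i, (P i).IsHomogeneous m := by
    intro i
    refine Fin.cases ?_ (fun j => ?_) i
    · exact hR₀
    · exact hR j
  obtain ⟨d, H, G, hH, hG, hGd, hGu⟩ := redDeg_exists m P hP hR₀0
  have hG0 : G 0 ≠ 0 := by
    intro h
    apply hR₀0
    have := hG 0
    rw [h, mul_zero] at this
    exact this
  have hevG0 : ev K N (G 0) ≠ 0 := fun h => hG0 (ev_ne (hGd 0) h)
  have hHev : ev K N H ≠ 0 := by
    intro h
    have h1 : ev K N (P 0) = 0 := by rw [hG 0, map_mul, h, zero_mul]
    exact hR₀0 (ev_ne hR₀ h1)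
  have hrel : ∀ i : Fin N, y i * ev K N (G 0) = ev K N (G i.succ) := by
    intro i
    apply mul_left_cancel₀ hHev
    have e0 : ev K N H * ev K N (G 0) = algebraMap _ (FF K N) (b : MvPolynomial (Fin N) K) := by
      rw [← map_mul, ← hG 0, ev_eq]
      show algebraMap _ (FF K N) (dh K N R₀) = _
      rw [hR₀']
    have e1 : ev K N H * ev K N (G i.succ) = algebraMap _ (FF K N) (a i) := by
      rw [← map_mul, ← hG i.succ, ev_eq]
      show algebraMap _ (FF K N) (dh K N (R i)) = _
      rw [hR']
    have e2 := ha i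
    rw [Algebra.smul_def] at e2
    rw [e1, e2, ← e0]
    ring
  have hd : 0 < d := by
    rcases Nat.eq_zero_or_pos d with h0 | h0
    · exfalso
      subst h0
      have hc : ∀ i, ∃ c : K, G i = C c := by
        intro i
        have h1 := hGd i
        rw [← MvPolynomial.totalDegree_zero_iff_isHomogeneous,
          MvPolynomial.totalDegree_eq_zero_iff_eq_C] at h1
        exact ⟨_, h1⟩
      obtain ⟨c₀, hc₀⟩ := hc 0
      obtain ⟨c₁, hc₁⟩ := hc i₀.succ
      have h2 := hrel i₀
      rw [hc₀, hc₁] at h2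
      have h3 : ev K N (C c₀) = algebraMap K (FF K N) c₀ := by
        rw [ev, aeval_C]
      have h4 : ev K N (C c₁) = algebraMap K (FF K N) c₁ := by
        rw [ev, aeval_C]
      rw [h3, h4] at h2
      have hc₀0 : algebraMap K (FF K N) c₀ ≠ 0 := by
        rw [← h3, ← hc₀]
        exact hevG0
      have htr : Transcendental K (y i₀) := hy.transcendental i₀
      apply htr
      have : y i₀ = algebraMap K (FF K N) (c₁ / c₀) := by
        rw [map_div₀, eq_div_iff hc₀0, h2]
      rw [this]
      exact isAlgebraic_algebraMap _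
    · exact h0
  refine ⟨d, G, hGd, hGu, ?_, hevG0, hrel⟩
  -- homogeneous relations vanish
  have hhom : ∀ (Q : MvPolynomial (Fin (N + 1)) K) (e : ℕ), Q.IsHomogeneous e →
      aeval G Q = 0 → Q = 0 := by
    intro Q e hQ h0
    have h1 : ev K N (aeval G Q) = 0 := by rw [h0, map_zero]
    rw [← AlgHom.comp_apply, comp_aeval] at h1
    have h2 : (fun i => ev K N (G i)) =
        fun i => ev K N (G 0) * (Fin.cons 1 y : Fin (N + 1) → FF K N) i := by
      funext i
      refine Fin.cases ?_ (fun j => ?_) i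
      · simp
      · rw [Fin.cons_succ, mul_comm, hrel]
    rw [h2, Pool.Agent.Helper993.CS.ff_scale hQ] at h1
    have h3 := (mul_eq_zero.mp h1).resolve_left (pow_ne_zero _ hevG0)
    have h4 : aeval (Fin.cons 1 y : Fin (N + 1) → FF K N) Q = aeval y (dh K N Q) := by
      rw [dh, ← AlgHom.comp_apply, comp_aeval]
      congr 2
      funext i
      refine Fin.cases ?_ (fun j => ?_) i
      · simp
      · simp
    rw [h4] at h3
    exact dh_inj hQ (hy.eq_zero_of_aeval_eq_zero _ h3)
  rw [algebraicIndependent_iff]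
  intro Q hQ
  rw [← MvPolynomial.sum_homogeneousComponent Q]
  apply Finset.sum_eq_zero
  intro j hj
  apply hhom _ j (homogeneousComponent_isHomogeneous j Q)
  have h5 := congrArg (homogeneousComponent (d * j)) hQ
  rw [map_zero, ← MvPolynomial.sum_homogeneousComponent Q, map_sum, map_sum] at h5
  rw [Finset.sum_eq_single j] at h5
  · rw [← h5]
    have h6 : (aeval G (homogeneousComponent j Q)).IsHomogeneous (d * j) :=
      (homogeneousComponent_isHomogeneous j Q).aeval G hGd
    rw [homogeneousComponent_of_mem h6, if_pos rfl]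
  · intro i hi hij
    have h6 : (aeval G (homogeneousComponent i Q)).IsHomogeneous (d * i) :=
      (homogeneousComponent_isHomogeneous i Q).aeval G hGd
    rw [homogeneousComponent_of_mem h6, if_neg]
    intro h7
    exact hij (Nat.eq_of_mul_eq_mul_left hd h7).symm
  · intro hj'
    exact absurd hj hj'

/-- the iterates of the tuple compute the iterates of the self-map -/
theorem iter_rel (d : ℕ) (f : Fin (N + 1) → MvPolynomial (Fin (N + 1)) K)
    (hf : ∀ i, (f i).IsHomogeneous d) (φ : FF K N →ₐ[K] FF K N) (hf0 : ev K N (f 0) ≠ 0)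
    (hφ : ∀ i : Fin N, φ (gen K N i) * ev K N (f 0) = ev K N (f i.succ)) (n : ℕ) :
    ev K N (iter f n 0) ≠ 0 ∧
      ∀ i : Fin N, (⇑φ)^[n] (gen K N i) * ev K N (iter f n 0) = ev K N (iter f n i.succ) := by
  set x : Fin (N + 1) → FF K N := Fin.cons 1 (gen K N) with hx
  have hx0 : x 0 = 1 := rfl
  have hxs : ∀ i : Fin N, x i.succ = gen K N i := fun i => rfl
  have hφ' : ∀ i, φ (x i) * ev K N (f 0) = ev K N (f i) := by
    intro i
    refine Fin.cases ?_ (fun j => ?_) i
    · rw [hx0, map_one, one_mul]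
    · rw [hxs]; exact hφ j
  have key : ∀ (n : ℕ) (P : MvPolynomial (Fin (N + 1)) K),
      (⇑φ)^[n] (ev K N P) = aeval (fun i => (⇑φ)^[n] (x i)) P := by
    intro n
    induction n with
    | zero => intro P; rfl
    | succ n ih =>
      intro P
      simp only [Function.iterate_succ', Function.comp_apply]
      rw [ih, ← AlgHom.comp_apply, comp_aeval]
  have hmul : ∀ (n : ℕ) (a b : FF K N), (⇑φ)^[n] (a * b) = (⇑φ)^[n] a * (⇑φ)^[n] b := by
    intro n a b
    exact iterate_map_mul φ n a b
  have hinj : ∀ n : ℕ, Function.Injective ((⇑φ)^[n]) := fun n => φ.toRingHom.injective.iterate n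
  have hzero : ∀ n : ℕ, (⇑φ)^[n] 0 = 0 := fun n => iterate_map_zero φ n
  have main : ev K N (iter f n 0) ≠ 0 ∧
      ∀ i, (⇑φ)^[n] (x i) * ev K N (iter f n 0) = ev K N (iter f n i) := by
    induction n with
    | zero =>
      have h0 : ∀ i, ev K N (iter f 0 i) = x i := by
        intro i
        show ev K N (X i) = x i
        rw [ev, aeval_X]
      refine ⟨?_, ?_⟩
      · rw [h0, hx0]
        exact one_ne_zero
      · intro i
        rw [h0, h0, hx0, mul_one]
        rfl
    | succ n ih =>
      obtain ⟨ih0, ih1⟩ := ih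
      have step : ∀ i, ev K N (iter f (n+1) i) = (ev K N (iter f n 0))^d * (⇑φ)^[n] (ev K N (f i)) := by
        intro i
        have e1 : ev K N (iter f (n + 1) i) = aeval (fun j => ev K N (iter f n j)) (f i) := by
          show ev K N (bind₁ (iter f n) (f i)) = _
          rw [ev, aeval_bind₁]
        rw [e1, key, ← Pool.Agent.Helper993.CS.ff_scale (hf i)]
        congr 2
        funext j
        rw [mul_comm]
        exact (ih1 j).symm
      refine ⟨?_, ?_⟩
      · rw [step]
        apply mul_ne_zero (pow_ne_zero _ ih0)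
        intro h
        exact hf0 (hinj n (by rw [h, hzero]))
      · intro i
        rw [step, step, Function.iterate_succ, Function.comp_apply]
        rw [← hφ' i, hmul]
        ring
  exact ⟨main.1, fun i => main.2 i.succ⟩

/-- the reduced degree bounds the heights -/
lemma ht_of_redDeg {P : Fin (N + 1) → MvPolynomial (Fin (N + 1)) K} {D : ℕ} (h : RedDeg P D)
    (h0 : ev K N (P 0) ≠ 0) (y : Fin N → FF K N)
    (hy : ∀ i, y i * ev K N (P 0) = ev K N (P i.succ)) (i : Fin N) : HtLe (y i) D := by
  obtain ⟨H, G, hH, hG, hGd, hGu⟩ := h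
  have hH' : ev K N H ≠ 0 := by
    intro h1
    apply h0
    rw [hG 0, map_mul, h1, zero_mul]
  have hG' : ev K N (G 0) ≠ 0 := by
    intro h1
    apply h0
    rw [hG 0, map_mul, h1, mul_zero]
  have hG0 : G 0 ≠ 0 := by
    intro h1
    apply hG'
    rw [h1, map_zero]
  have : y i = ev K N (G i.succ) / ev K N (G 0) := by
    rw [eq_div_iff hG']
    apply mul_left_cancel₀ hH'
    have := hy i
    rw [hG 0, hG i.succ, map_mul, map_mul] at this
    rw [← this]
    ring
  rw [this]
  exact ht_div (hGd _) (hGd _) hG0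

/-- the heights bound the reduced degree -/
lemma redDeg_le {P : Fin (N + 1) → MvPolynomial (Fin (N + 1)) K} {D : ℕ} (h : RedDeg P D)
    (h0 : ev K N (P 0) ≠ 0) (y : Fin N → FF K N)
    (hy : ∀ i, y i * ev K N (P 0) = ev K N (P i.succ)) (e : ℕ) (he : ∀ i, HtLe (y i) e) :
    D ≤ N * e := by
  classical
  obtain ⟨H, G, hH, hG, hGd, hGu⟩ := h
  have hH' : ev K N H ≠ 0 := by
    intro h1
    apply h0
    rw [hG 0, map_mul, h1, zero_mul]
  have hG' : ev K N (G 0) ≠ 0 := by
    intro h1
    apply h0
    rw [hG 0, map_mul, h1, mul_zero]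
  have hG0 : G 0 ≠ 0 := by
    intro h1
    apply hG'
    rw [h1, map_zero]
  have hyG : ∀ i, y i * ev K N (G 0) = ev K N (G i.succ) := by
    intro i
    apply mul_left_cancel₀ hH'
    have := hy i
    rw [hG 0, hG i.succ, map_mul, map_mul] at this
    rw [← this]
    ring
  choose A B hB hA' hB' hAB using he
  set b := ∏ i, B i with hb
  have hb0 : b ≠ 0 := Finset.prod_ne_zero_iff.mpr fun i _ => hB i
  have hbdeg : b.totalDegree ≤ N * e := by
    refine (totalDegree_finsetProd _ _).trans ?_
    refine (Finset.sum_le_card_nsmul _ _ e fun i _ => hB' i).trans ?_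
    simp
  have hai : ∀ i, (A i * ∏ j ∈ Finset.univ.erase i, B j).totalDegree ≤ N * e := by
    intro i
    refine (totalDegree_mul _ _).trans ?_
    have h1 : (∏ j ∈ Finset.univ.erase i, B j).totalDegree ≤ (N - 1) * e := by
      refine (totalDegree_finsetProd _ _).trans ?_
      refine (Finset.sum_le_card_nsmul _ _ e fun i _ => hB' i).trans ?_
      rw [Finset.card_erase_of_mem (Finset.mem_univ i)]
      simp
    have h2 := hA' i
    have h3 : 1 ≤ N := by
      have := i.isLt
      omega
    calc _ ≤ e + (N - 1) * e := Nat.add_le_add h2 h1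
      _ = (1 + (N - 1)) * e := by ring
      _ = N * e := by congr 1; omega
  obtain ⟨R₀, hR₀, hR₀'⟩ := homogenize b (N * e) hbdeg
  have hRi : ∀ i, ∃ R : MvPolynomial (Fin (N + 1)) K, R.IsHomogeneous (N * e) ∧
      dh K N R = A i * ∏ j ∈ Finset.univ.erase i, B j := fun i => homogenize _ _ (hai i)
  choose R hR hR' using hRi
  have hR₀0 : R₀ ≠ 0 := by
    rintro rfl
    rw [map_zero] at hR₀'
    exact hb0 hR₀'.symm
  have hyR : ∀ i, y i * ev K N R₀ = ev K N (R i) := by
    intro i
    rw [ev_eq, ev_eq, hR₀', hR', hAB i, hb, ← Finset.mul_prod_erase _ _ (Finset.mem_univ i)]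
    rw [map_mul, map_mul]
    have : algebraMap (MvPolynomial (Fin N) K) (FF K N) (B i) ≠ 0 := algebraMap_ne (hB i)
    field_simp
  have hcross : ∀ i, G i.succ * R₀ = G 0 * R i := by
    intro i
    have h1 : (G i.succ * R₀ - G 0 * R i).IsHomogeneous (D + N * e) :=
      ((hGd _).mul hR₀).sub ((hGd _).mul (hR i))
    have h2 : ev K N (G i.succ * R₀ - G 0 * R i) = 0 := by
      rw [map_sub, map_mul, map_mul, ← hyG i, ← hyR i]
      ring
    exact sub_eq_zero.mp (ev_ne h1 h2)
  have hdvd : G 0 ∣ R₀ := by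
    apply red_assoc (P := fun i => R₀ * G i) (G := G) (fun i => rfl) hGu
    intro i
    refine Fin.cases ?_ (fun j => ?_) i
    · exact Dvd.intro_left _ rfl
    · rw [mul_comm, hcross j]
      exact Dvd.intro _ rfl
  obtain ⟨T, hT⟩ := hdvd
  have hR₀h : (G 0 * T).IsHomogeneous (N * e) := hT ▸ hR₀
  obtain ⟨p, q, hpq, hp, hq⟩ := factor_hom hR₀h (hT ▸ hR₀0)
  have := hp.inj_right (hGd 0) hG0
  omega

end Pool.Agent.Helper9K9.DG
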