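import Pool.Agent.Helper9K9.DG.Low
import Pool.Agent.Helper9K9.DG.Hom

/-!
# Upper and lower bounds for the degrees of the iterates
-/

set_option autoImplicit false

namespace Pool.Agent.Helper9K9.DG

open WeierstrassCurve.Affine

open Pool.Agent.Helper993.CS (iter RedDeg iter_hom redDeg_exists)

open scoped Classical

universe u

variable {K : Type u} [Field K]

/-- the iterates of the induced map on points -/
lemma mapPt_iterate {φ : FF K 3 →ₐ[K] FF K 3} {hD : (φ : FF K 3 →+* FF K 3) (Dl K) = Dl K}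
    (n : ℕ) {x y : FF K 3} (h : (E (Dl K)).Nonsingular x y) :
    ∃ h', (mapPt (Dl K) (φ : FF K 3 →+* FF K 3) (Dl K) hD)^[n] (.some x y h) =
      .some ((⇑φ)^[n] x) ((⇑φ)^[n] y) h' := by
  induction n with
  | zero => exact ⟨h, rfl⟩
  | succ n ih =>
    obtain ⟨h1, e1⟩ := ih
    obtain ⟨h2, e2⟩ := mapPt_some (D := Dl K) (φ := (φ : FF K 3 →+* FF K 3)) (D' := Dl K)
      (hD := hD) h1
    simp only [Function.iterate_succ', Function.comp_apply]
    rw [e1, e2]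
    exact ⟨h2, rfl⟩

/-- everything needed about the self-map -/
theorem dyn (h2 : (2 : K) ≠ 0) (h3 : (3 : K) ≠ 0) :
    ∃ (φ : FF K 3 →ₐ[K] FF K 3) (C : ℕ), AlgebraicIndependent K (fun i => φ (gen K 3 i)) ∧
      Function.Surjective φ ∧
      (∀ n, 1 ≤ n → ∀ i, HtLe ((⇑φ)^[n] (gen K 3 i)) (C * n ^ 18)) ∧
      (∀ (j B : ℕ), (∀ i, HtLe ((⇑φ)^[2 ^ (j + 1)] (gen K 3 i)) B) →
        (∀ i, HtLe ((⇑φ)^[2 ^ (j + 2)] (gen K 3 i)) B) → 16 ^ j ≤ C * (B + 1)) := by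
  obtain ⟨φ, hD, hφl, hind, hsurj, hP₁, hP₂, hsg⟩ := exists_phi h2 h3
  set T := mapPt (Dl K) (φ : FF K 3 →+* FF K 3) (Dl K) hD with hT
  have hTP₂ : ∀ n : ℕ, (⇑T)^[n] (P₂ h2 h3) = P₂ h2 h3 + n • sg h2 h3 := by
    intro n
    induction n with
    | zero => simp
    | succ n ih =>
      simp only [Function.iterate_succ', Function.comp_apply]
      rw [ih, map_add, map_nsmul, hP₂, hsg, Q₂, succ_nsmul]
      abel
  have hTP₁ : ∀ n : ℕ, (⇑T)^[n] (P₁ h2 h3) =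
      P₁ h2 h3 + (2 * n) • P₂ h2 h3 + (n ^ 2) • sg h2 h3 := by
    intro n
    induction n with
    | zero => simp
    | succ n ih =>
      simp only [Function.iterate_succ', Function.comp_apply]
      rw [ih, map_add, map_add, map_nsmul, map_nsmul, hP₁, hP₂, hsg, Q₁, Q₂]
      have e1 : 2 * (n + 1) = 2 * n + 2 := by ring
      have e2 : (n + 1) ^ 2 = n ^ 2 + 2 * n + 1 := by ring
      rw [e1, e2, add_nsmul, add_nsmul, add_nsmul, smul_add, two_nsmul, one_nsmul]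
      abel
  obtain ⟨a₀, ha₀⟩ := HtLe.exists_ht (ll K)
  obtain ⟨a₁, ha₁⟩ := PLe.exists (P₁ h2 h3)
  obtain ⟨a₂, ha₂⟩ := PLe.exists (P₂ h2 h3)
  obtain ⟨a₃, ha₃⟩ := PLe.exists (sg h2 h3)
  set d := a₀ + a₁ + a₂ + a₃ with hd
  have hl : HtLe (ll K) d := ha₀.mono (by omega)
  have hp₁ : PLe (P₁ h2 h3) d := ha₁.mono (by omega)
  have hp₂ : PLe (P₂ h2 h3) d := ha₂.mono (by omega)
  have hp₃ : PLe (sg h2 h3) d := ha₃.mono (by omega)
  have hl0 := ll_ne h2 (K := K)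
  have hφln : ∀ n, (⇑φ)^[n] (ll K) = ll K := fun n => Function.iterate_fixed hφl n
  have hmul : ∀ (n : ℕ) (a b : FF K 3), (⇑φ)^[n] (a * b) = (⇑φ)^[n] a * (⇑φ)^[n] b :=
    fun n a b => iterate_map_mul φ n a b
  have hneg : ∀ (n : ℕ) (a : FF K 3), (⇑φ)^[n] (-a) = -(⇑φ)^[n] a :=
    fun n a => iterate_map_neg φ n a
  have hone : ∀ (n : ℕ), (⇑φ)^[n] 1 = 1 := fun n => iterate_map_one φ n
  have hsub : ∀ (n : ℕ) (a b : FF K 3), (⇑φ)^[n] (a - b) = (⇑φ)^[n] a - (⇑φ)^[n] b :=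
    fun n a b => iterate_map_sub φ n a b
  -- the iterates as ring homomorphisms
  have hφn : ∀ n : ℕ, ∃ ψ : FF K 3 →+* FF K 3, ∀ x, ψ x = (⇑φ)^[n] x := by
    intro n
    induction n with
    | zero => exact ⟨RingHom.id _, fun x => rfl⟩
    | succ n ih =>
      obtain ⟨ψ, hψ⟩ := ih
      refine ⟨(φ : FF K 3 →+* FF K 3).comp ψ, fun x => ?_⟩
      simp only [Function.iterate_succ', Function.comp_apply]
      rw [RingHom.comp_apply, hψ]
      rfl
  obtain ⟨C, hC⟩ : ∃ C : ℕ, C = 100000 * (d + 1) := ⟨_, rfl⟩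
  refine ⟨φ, C, hind, hsurj, ?_, ?_⟩
  · -- upper bound
    intro n hn
    have hn9 : 1 ≤ n ^ 9 := Nat.one_le_pow _ _ hn
    have hn18 : n ^ 9 ≤ n ^ 18 := Nat.pow_le_pow_right hn (by norm_num)
    have b₂ : PLe ((⇑T)^[n] (P₂ h2 h3)) (24 * (n ^ 18 * d)) := by
      rw [hTP₂]
      refine (hp₂.add (hp₃.nsmul n)).mono ?_
      have : d + n ^ 9 * d ≤ 2 * (n ^ 18 * d) := by
        calc d + n ^ 9 * d = (1 + n ^ 9) * d := by ring
          _ ≤ (2 * n ^ 18) * d := Nat.mul_le_mul_right _ (by omega)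
          _ = 2 * (n ^ 18 * d) := by ring
      omega
    have b₁ : PLe ((⇑T)^[n] (P₁ h2 h3)) (74000 * (n ^ 18 * d)) := by
      rw [hTP₁]
      refine ((hp₁.add (hp₂.nsmul (2 * n))).add (hp₃.nsmul (n ^ 2))).mono ?_
      have e1 : (2 * n) ^ 9 = 512 * n ^ 9 := by ring
      have e2 : (n ^ 2) ^ 9 = n ^ 18 := by ring
      rw [e1, e2]
      have : d + 512 * n ^ 9 * d ≤ 513 * (n ^ 18 * d) := by
        calc d + 512 * n ^ 9 * d = (1 + 512 * n ^ 9) * d := by ring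
          _ ≤ (513 * n ^ 18) * d := Nat.mul_le_mul_right _ (by omega)
          _ = 513 * (n ^ 18 * d) := by ring
      omega
    obtain ⟨h1, e1⟩ := mapPt_iterate (φ := φ) (hD := hD) n
      (ns (ff_two h2) (ff_three h3) (Dl_ne h2) (pt_eqn (rel_v₁ (K := K))))
    obtain ⟨h1', e1'⟩ := mapPt_iterate (φ := φ) (hD := hD) n
      (ns (ff_two h2) (ff_three h3) (Dl_ne h2) (pt_eqn (rel_v₂ (K := K))))
    have c₁ := b₁
    rw [P₁, mkP, hT, e1] at c₁
    have c₂ := b₂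
    rw [P₂, mkP, hT, e1'] at c₂
    obtain ⟨x₁, y₁⟩ := c₁.some
    obtain ⟨x₂, y₂⟩ := c₂.some
    rw [hmul, hneg, hφln] at x₁ x₂
    rw [hmul, hφln] at y₁ y₂
    have hln : -ll K ≠ 0 := neg_ne_zero.mpr hl0
    have z₁ : HtLe ((⇑φ)^[n] (gen K 3 1)) (74000 * (n ^ 18 * d) + d) := by
      have := x₁.div hl.neg
      rwa [mul_div_cancel_left₀ _ hln] at this
    have z₂ : HtLe ((⇑φ)^[n] (gen K 3 2)) (24 * (n ^ 18 * d) + d) := by
      have := x₂.div hl.neg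
      rwa [mul_div_cancel_left₀ _ hln] at this
    have w₁ : HtLe ((⇑φ)^[n] (v₁ K)) (74000 * (n ^ 18 * d) + d) := by
      have := y₁.div hl
      rwa [mul_div_cancel_left₀ _ hl0] at this
    have w₂ : HtLe ((⇑φ)^[n] (v₂ K)) (24 * (n ^ 18 * d) + d) := by
      have := y₂.div hl
      rwa [mul_div_cancel_left₀ _ hl0] at this
    have z₀ : HtLe ((⇑φ)^[n] (gen K 3 0)) ((74000 * (n ^ 18 * d) + d) + (24 * (n ^ 18 * d) + d)) := by
      obtain ⟨ψ, hψ⟩ := hφn n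
      have hs : (⇑φ)^[n] (gen K 3 0) = ((⇑φ)^[n] (v₁ K) - 1) / ((⇑φ)^[n] (v₂ K) - 1) := by
        have h9 : (v₁ K - 1) / (v₂ K - 1) = gen K 3 0 :=
          slope_eq (ff_two h2) (fw_ne K) (fe_ne K)
        rw [← h9, ← hψ, ← hψ, ← hψ, map_div₀, map_sub, map_sub, map_one]
      rw [hs]
      exact (w₁.sub HtLe.one).div (w₂.sub HtLe.one)
    have hn18' : 1 ≤ n ^ 18 := Nat.one_le_pow _ _ hn
    have hdn : d ≤ n ^ 18 * d := Nat.le_mul_of_pos_left d (by omega)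
    have hCn : C * n ^ 18 = 100000 * (n ^ 18 * d) + 100000 * n ^ 18 := by rw [hC]; ring
    intro i
    fin_cases i
    · exact z₀.mono (by omega)
    · exact z₁.mono (by omega)
    · exact z₂.mono (by omega)
  · -- lower bound
    intro j B hB1 hB2
    -- bounds for the points from bounds for the generators
    have hpt : ∀ (n B : ℕ), (∀ i, HtLe ((⇑φ)^[n] (gen K 3 i)) B) →
        PLe ((⇑T)^[n] (P₁ h2 h3)) (d + 16 * B) := by
      intro n B hB
      obtain ⟨h1, e1⟩ := mapPt_iterate (φ := φ) (hD := hD) n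
        (ns (ff_two h2) (ff_three h3) (Dl_ne h2) (pt_eqn (rel_v₁ (K := K))))
      rw [P₁, mkP, hT, e1]
      refine Or.inr ⟨_, _, _, rfl, ?_, ?_⟩
      · rw [hmul, hneg, hφln]
        exact (hl.neg.mul (hB 1)).mono (by omega)
      · rw [hmul, hφln]
        obtain ⟨ψ, hψ⟩ := hφn n
        have hv : (⇑φ)^[n] (v₁ K) = uu₁ ((⇑φ)^[n] (gen K 3 0)) ((⇑φ)^[n] (gen K 3 1))
            ((⇑φ)^[n] (gen K 3 2)) := by
          rw [v₁, ← hψ, ← hψ, ← hψ, ← hψ, map_uu₁]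
        rw [hv]
        have k0 := hB 0
        have k1 := (HtLe.one (K := K) (σ := Fin 3)).sub ((hB 1).pow 3)
        have k2 := (HtLe.one (K := K) (σ := Fin 3)).sub ((hB 2).pow 3)
        have hfe : HtLe (fe ((⇑φ)^[n] (gen K 3 0)) ((⇑φ)^[n] (gen K 3 1))
            ((⇑φ)^[n] (gen K 3 2))) (7 * B) := by
          rw [fe]
          exact (k1.sub (k0.mul k2)).mono (by omega)
        have hfw : HtLe (fw ((⇑φ)^[n] (gen K 3 0)) ((⇑φ)^[n] (gen K 3 1))
            ((⇑φ)^[n] (gen K 3 2))) (8 * B) := by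
          rw [fw]
          exact (((k0.pow 2).mul k2).sub k1).mono (by omega)
        have huu : HtLe (uu₁ ((⇑φ)^[n] (gen K 3 0)) ((⇑φ)^[n] (gen K 3 1))
            ((⇑φ)^[n] (gen K 3 2))) (16 * B) := by
          rw [uu₁]
          exact (HtLe.one.add (k0.mul ((HtLe.two.mul hfe).div hfw))).mono (by omega)
        exact hl.mul huu
    set m := 2 ^ (j + 1) with hm
    have hm2 : 2 ^ (j + 2) = 2 * m := by rw [hm]; ring
    rw [hm2] at hB2
    have q1 := hpt m B hB1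
    have q2 := hpt (2 * m) B hB2
    have hid : (2 ^ ((2 * j + 1) + 2)) • sg h2 h3 =
        (⇑T)^[2 * m] (P₁ h2 h3) - ((⇑T)^[m] (P₁ h2 h3) + (⇑T)^[m] (P₁ h2 h3)) + P₁ h2 h3 := by
      rw [hTP₁, hTP₁]
      have e1 : 2 ^ ((2 * j + 1) + 2) = 2 * m ^ 2 := by rw [hm]; ring
      have e2 : 2 * (2 * m) = 2 * m + 2 * m := by ring
      have e3 : (2 * m) ^ 2 = 2 * m ^ 2 + (m ^ 2 + m ^ 2) := by ring
      rw [e1, e2, e3, add_nsmul, add_nsmul, add_nsmul]
      abel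
    have q3 : PLe ((2 ^ ((2 * j + 1) + 2)) • sg h2 h3) (100000 * (d + 1) * (B + 1)) := by
      rw [hid]
      refine ((q2.sub (q1.add q1)).add hp₁).mono ?_
      nlinarith [Nat.zero_le d, Nat.zero_le B, Nat.zero_le (d * B)]
    have q4 := low h2 h3 (2 * j + 1) _ q3
    rw [hC]
    refine le_trans ?_ q4
    have e5 : 4 ^ (2 * j + 1) = 4 * 16 ^ j := by
      rw [pow_succ, pow_mul]; norm_num; ring
    rw [e5]
    omega

end Pool.Agent.Helper9K9.DG
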