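import Pool.Agent.Helper9K9.DG.Dyn

/-!
# The degree sequence
-/

set_option autoImplicit false

namespace Pool.Agent.Helper9K9.DG

open MvPolynomial Filter Topology

open Pool.Agent.Helper993.CS (iter RedDeg iter_hom redDeg_exists)

universe u

variable {K : Type u} [Field K] {N : ℕ}

/-- the tuple of forms has a rational inverse -/
def HasInverse (f : Fin (N + 1) → MvPolynomial (Fin (N + 1)) K) : Prop :=
  ∃ (e : ℕ) (g : Fin (N + 1) → MvPolynomial (Fin (N + 1)) K) (H H' : MvPolynomial (Fin (N + 1)) K),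
    (∀ i, (g i).IsHomogeneous e) ∧ H ≠ 0 ∧ H' ≠ 0 ∧
    (∀ i, bind₁ f (g i) = H * X i) ∧ (∀ i, bind₁ g (f i) = H' * X i)

lemma ev_bind (f : Fin (N + 1) → MvPolynomial (Fin (N + 1)) K) (φ : FF K N →ₐ[K] FF K N)
    (hφ : ∀ i : Fin N, φ (gen K N i) * ev K N (f 0) = ev K N (f i.succ))
    {P : MvPolynomial (Fin (N + 1)) K} {e : ℕ} (hP : P.IsHomogeneous e) :
    ev K N (bind₁ f P) = ev K N (f 0) ^ e * φ (ev K N P) := by
  have e1 : ev K N (bind₁ f P) = aeval (fun j => ev K N (f j)) P := by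
    rw [ev, aeval_bind₁]
  have e2 : φ (ev K N P) = aeval (fun j => φ ((Fin.cons 1 (gen K N) : Fin (N + 1) → FF K N) j)) P := by
    rw [ev, ← AlgHom.comp_apply, comp_aeval]
  rw [e1, e2, ← Pool.Agent.Helper993.CS.ff_scale hP]
  congr 2
  funext i
  refine Fin.cases ?_ (fun j => ?_) i
  · simp
  · rw [Fin.cons_succ, mul_comm, hφ]

lemma comp_id_tuple (hN : 0 < N) (f g : Fin (N + 1) → MvPolynomial (Fin (N + 1)) K) (d e : ℕ)
    (hf : ∀ i, (f i).IsHomogeneous d) (hg : ∀ i, (g i).IsHomogeneous e)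
    (φ φ' : FF K N →ₐ[K] FF K N) (hf0 : ev K N (f 0) ≠ 0) (hg0 : ev K N (g 0) ≠ 0)
    (hφ : ∀ i : Fin N, φ (gen K N i) * ev K N (f 0) = ev K N (f i.succ))
    (hφ' : ∀ i : Fin N, φ' (gen K N i) * ev K N (g 0) = ev K N (g i.succ))
    (hid : ∀ x, φ (φ' x) = x) :
    ∃ H : MvPolynomial (Fin (N + 1)) K, H ≠ 0 ∧ ∀ i, bind₁ f (g i) = H * X i := by
  have h0 : ev K N (bind₁ f (g 0)) ≠ 0 := by
    rw [ev_bind f φ hφ (hg 0)]
    exact mul_ne_zero (pow_ne_zero _ hf0) ((_root_.map_ne_zero φ).mpr hg0)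
  have hne : bind₁ f (g 0) ≠ 0 := fun h => h0 (by rw [h, map_zero])
  have hhom : ∀ i, (bind₁ f (g i)).IsHomogeneous (d * e) := fun i => (hg i).aeval f hf
  have hrel : ∀ i : Fin N, X 0 * bind₁ f (g i.succ) = X i.succ * bind₁ f (g 0) := by
    intro i
    have h1 : (X 0 * bind₁ f (g i.succ) - X i.succ * bind₁ f (g 0)).IsHomogeneous (1 + d * e) :=
      ((isHomogeneous_X K _).mul (hhom _)).sub ((isHomogeneous_X K _).mul (hhom _))
    apply sub_eq_zero.mp
    apply ev_ne h1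
    rw [map_sub, map_mul, map_mul, ev_bind f φ hφ (hg i.succ), ev_bind f φ hφ (hg 0), ← hφ' i,
      map_mul, hid]
    have e0 : ev K N (X 0) = 1 := by rw [ev, aeval_X]; rfl
    have e1 : ev K N (X i.succ) = gen K N i := by rw [ev, aeval_X]; rfl
    rw [e0, e1]
    ring
  have hdvd : (X 0 : MvPolynomial (Fin (N + 1)) K) ∣ bind₁ f (g 0) := by
    have h2 : (X 0 : MvPolynomial (Fin (N + 1)) K) ∣ X (Fin.succ ⟨0, hN⟩) * bind₁ f (g 0) :=
      Dvd.intro _ (hrel _)
    rcases (MvPolynomial.X_prime (R := K) (i := (0 : Fin (N + 1)))).dvd_or_dvd h2 with h3 | h3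
    · exfalso
      obtain ⟨q, hq⟩ := h3
      have h4 := congrArg (MvPolynomial.eval (Function.update (fun _ => (1 : K)) 0 0)) hq
      rw [map_mul, eval_X, eval_X, Function.update_self, zero_mul,
        Function.update_of_ne (Fin.succ_ne_zero _)] at h4
      exact one_ne_zero h4
    · exact h3
  obtain ⟨H, hH⟩ := hdvd
  have hX0 : (X 0 : MvPolynomial (Fin (N + 1)) K) ≠ 0 := X_ne_zero 0
  refine ⟨H, ?_, ?_⟩
  · rintro rfl
    exact hne (by rw [hH, mul_zero])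
  · intro i
    refine Fin.cases ?_ (fun j => ?_) i
    · rw [hH, mul_comm]
    · apply mul_left_cancel₀ hX0
      rw [hrel j, hH]
      ring


/-- **The degree sequence of the self-map of projective three-space.** -/
theorem main (h2 : (2 : K) ≠ 0) (h3 : (3 : K) ≠ 0) :
    ∃ (d : ℕ) (f : Fin (3 + 1) → MvPolynomial (Fin (3 + 1)) K) (D : ℕ → ℕ) (C : ℕ),
      (∀ i, (f i).IsHomogeneous d) ∧ (∀ q, (∀ i, q ∣ f i) → IsUnit q) ∧
      AlgebraicIndependent K f ∧ HasInverse f ∧ (∀ n, RedDeg (iter f n) (D n)) ∧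
      (∀ n, 1 ≤ n → 1 ≤ D n ∧ D n ≤ C * n ^ 18) ∧
      (∀ j, (2 ^ j) ^ 4 ≤ C * max (D (2 ^ j)) (D (2 ^ (j + 1)))) := by
  obtain ⟨φ, C, hind, hsurj, hup, hlow⟩ := dyn h2 h3
  obtain ⟨d, f, hfd, hfu, hfind, hf0, hfφ⟩ := proj_tuple (0 : Fin 3) _ hind
  have hinj : Function.Injective φ := φ.toRingHom.injective
  let ε : FF K 3 ≃ₐ[K] FF K 3 := AlgEquiv.ofBijective φ ⟨hinj, hsurj⟩
  have hε : ∀ x, φ (ε.symm x) = x := fun x => ε.apply_symm_apply x
  have hε' : ∀ x, ε.symm (φ x) = x := fun x => ε.symm_apply_apply x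
  have hind' : AlgebraicIndependent K (fun i => ε.symm (gen K 3 i)) := by
    have := (gen_indep (K := K) (N := 3)).map' (f := (ε.symm : FF K 3 →ₐ[K] FF K 3))
      ε.symm.injective
    exact this
  obtain ⟨e, g, hge, hgu, hgind, hg0, hgφ⟩ := proj_tuple (0 : Fin 3) _ hind'
  have hD : ∀ n, ∃ D, RedDeg (iter f n) D := by
    intro n
    apply redDeg_exists (d ^ n) (iter f n) (iter_hom d f hfd n)
    intro h
    have := (iter_rel d f hfd φ hf0 hfφ n).1
    rw [h, map_zero] at this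
    exact this rfl
  choose D hD using hD
  have hDht : ∀ n i, HtLe ((⇑φ)^[n] (gen K 3 i)) (D n) := by
    intro n i
    obtain ⟨h0, h1⟩ := iter_rel d f hfd φ hf0 hfφ n
    exact ht_of_redDeg (hD n) h0 _ h1 i
  have hDle : ∀ n B, (∀ i, HtLe ((⇑φ)^[n] (gen K 3 i)) B) → D n ≤ 3 * B := by
    intro n B hB
    obtain ⟨h0, h1⟩ := iter_rel d f hfd φ hf0 hfφ n
    exact redDeg_le (hD n) h0 _ h1 B hB
  have hDpos : ∀ n, 1 ≤ D n := by
    intro n
    by_contra hcon
    have h0 : D n = 0 := by omega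
    obtain ⟨A, B, hB, hA', hB', hAB⟩ := hDht n 0
    rw [h0] at hA' hB'
    have hA1 := totalDegree_eq_zero_iff_eq_C.mp (Nat.le_zero.mp hA')
    have hB1 := totalDegree_eq_zero_iff_eq_C.mp (Nat.le_zero.mp hB')
    have hC : ∀ c : K, algebraMap (MvPolynomial (Fin 3) K) (FF K 3) (MvPolynomial.C c) =
        algebraMap K (FF K 3) c := by
      intro c
      rw [← MvPolynomial.algebraMap_eq, ← IsScalarTower.algebraMap_apply]
    rw [hA1, hB1, hC, hC, ← map_div₀] at hAB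
    have hφc : ∀ c : K, (⇑φ)^[n] (algebraMap K (FF K 3) c) = algebraMap K (FF K 3) c := by
      intro c
      exact Function.iterate_fixed (φ.commutes c) n
    rw [← hφc] at hAB
    have h5 := (hinj.iterate n) hAB
    have htr : Transcendental K (gen K 3 0) := (gen_indep (K := K) (N := 3)).transcendental 0
    apply htr
    rw [h5]
    exact isAlgebraic_algebraMap _
  refine ⟨d, f, D, 32 * C + 3, hfd, hfu, hfind, ?_, hD, ?_, ?_⟩
  · obtain ⟨H, hH, hH1⟩ := comp_id_tuple (by norm_num) f g d e hfd hge φ ε.symm hf0 hg0 hfφ hgφ hε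
    obtain ⟨H', hH', hH1'⟩ := comp_id_tuple (by norm_num) g f e d hge hfd ε.symm φ hg0 hf0 hgφ hfφ
      hε'
    exact ⟨e, g, H, H', hge, hH, hH', hH1, hH1'⟩
  · intro n hn
    refine ⟨hDpos n, (hDle n _ (hup n hn)).trans ?_⟩
    calc 3 * (C * n ^ 18) = (3 * C) * n ^ 18 := by ring
      _ ≤ (32 * C + 3) * n ^ 18 := Nat.mul_le_mul_right _ (by omega)
  · intro j
    rcases Nat.eq_zero_or_pos j with h0 | h0
    · subst h0
      have := hDpos (2 ^ 0)
      have h1 : 1 ≤ max (D (2 ^ 0)) (D (2 ^ (0 + 1))) := le_max_of_le_left this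
      calc (2 ^ 0) ^ 4 = 1 := by norm_num
        _ ≤ (32 * C + 3) * max (D (2 ^ 0)) (D (2 ^ (0 + 1))) := Nat.mul_pos (by omega) h1
    · obtain ⟨i, rfl⟩ : ∃ i, j = i + 1 := ⟨j - 1, by omega⟩
      set B := max (D (2 ^ (i + 1))) (D (2 ^ (i + 1 + 1))) with hB
      have h1 := hlow i B (fun k => (hDht _ k).mono (le_max_left _ _))
        (fun k => (hDht _ k).mono (le_max_right _ _))
      have h2 : 1 ≤ B := le_max_of_le_left (hDpos _)
      calc (2 ^ (i + 1)) ^ 4 = 16 * 16 ^ i := by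
            rw [pow_succ 2 i, mul_pow, ← pow_mul, mul_comm i 4, pow_mul]; norm_num; ring
        _ ≤ 16 * (C * (B + 1)) := Nat.mul_le_mul_left _ h1
        _ ≤ 16 * (C * (2 * B)) := by
            apply Nat.mul_le_mul_left
            apply Nat.mul_le_mul_left
            omega
        _ = 32 * C * B := by ring
        _ ≤ (32 * C + 3) * B := Nat.mul_le_mul_right _ (by omega)

/-- the growth rate of a sequence with polynomial upper bound -/
lemma tendsto_root {D : ℕ → ℕ} {C : ℕ} (h : ∀ n, 1 ≤ n → 1 ≤ D n ∧ D n ≤ C * n ^ 18) :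
    Tendsto (fun n : ℕ => (D n : ℝ) ^ ((1 : ℝ) / n)) atTop (𝓝 1) := by
  have hC : 1 ≤ C := by
    have h1 := h 1 le_rfl
    have : 1 ≤ C * 1 ^ 18 := h1.1.trans h1.2
    simpa using this
  have hCpos : (0 : ℝ) < C := by exact_mod_cast hC
  have t1 : Tendsto (fun n : ℕ => (C : ℝ) ^ ((1 : ℝ) / n)) atTop (𝓝 1) := by
    have h0 : Tendsto (fun n : ℕ => (1 : ℝ) / n) atTop (𝓝 0) := tendsto_one_div_atTop_nhds_zero_nat
    have := (Real.continuousAt_const_rpow (a := (C : ℝ)) (b := 0) hCpos.ne').tendsto.comp h0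
    rw [Real.rpow_zero] at this
    exact this
  have t2 : Tendsto (fun n : ℕ => (n : ℝ) ^ ((1 : ℝ) / n)) atTop (𝓝 1) :=
    tendsto_rpow_div.comp tendsto_natCast_atTop_atTop
  have t3 : Tendsto (fun n : ℕ => (C : ℝ) ^ ((1 : ℝ) / n) * ((n : ℝ) ^ ((1 : ℝ) / n)) ^ 18) atTop
      (𝓝 (1 * 1 ^ 18)) := t1.mul (t2.pow 18)
  rw [one_pow, mul_one] at t3
  refine tendsto_of_tendsto_of_tendsto_of_le_of_le' tendsto_const_nhds t3 ?_ ?_
  · filter_upwards [eventually_ge_atTop 1] with n hn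
    exact Real.one_le_rpow (by exact_mod_cast (h n hn).1) (by positivity)
  · filter_upwards [eventually_ge_atTop 1] with n hn
    have h1 : (D n : ℝ) ≤ C * (n : ℝ) ^ 18 := by exact_mod_cast (h n hn).2
    calc (D n : ℝ) ^ ((1 : ℝ) / n) ≤ (C * (n : ℝ) ^ 18) ^ ((1 : ℝ) / n) :=
          Real.rpow_le_rpow (by positivity) h1 (by positivity)
      _ = (C : ℝ) ^ ((1 : ℝ) / n) * ((n : ℝ) ^ ((1 : ℝ) / n)) ^ 18 := by
          rw [Real.mul_rpow (by positivity) (by positivity), ← Real.rpow_natCast,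
            ← Real.rpow_natCast, ← Real.rpow_mul (by positivity), ← Real.rpow_mul (by positivity),
            mul_comm ((18 : ℕ) : ℝ)]

end Pool.Agent.Helper9K9.DG
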