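import Mathlib

/-!
# The rational parametrisation
-/

set_option autoImplicit false

namespace Pool.Agent.Helper9K9.DG

universe u v

variable {F : Type u} [Field F] {F' : Type v} [Field F']

/-- `w` -/
def fw (s z₁ z₂ : F) : F := s ^ 2 * (1 - z₂ ^ 3) - (1 - z₁ ^ 3)
/-- `e` -/
def fe (s z₁ z₂ : F) : F := (1 - z₁ ^ 3) - s * (1 - z₂ ^ 3)
/-- `λ` -/
def lam (s z₁ z₂ : F) : F := 4 * s * (s - 1) * fe s z₁ z₂ / fw s z₁ z₂ ^ 2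
/-- `u₁` -/
def uu₁ (s z₁ z₂ : F) : F := 1 + s * (2 * fe s z₁ z₂ / fw s z₁ z₂)
/-- `u₂` -/
def uu₂ (s z₁ z₂ : F) : F := 1 + 2 * fe s z₁ z₂ / fw s z₁ z₂

lemma map_fw (φ : F →+* F') (s z₁ z₂ : F) : φ (fw s z₁ z₂) = fw (φ s) (φ z₁) (φ z₂) := by
  simp [fw]

lemma map_fe (φ : F →+* F') (s z₁ z₂ : F) : φ (fe s z₁ z₂) = fe (φ s) (φ z₁) (φ z₂) := by
  simp [fe]

lemma map_lam (φ : F →+* F') (s z₁ z₂ : F) : φ (lam s z₁ z₂) = lam (φ s) (φ z₁) (φ z₂) := by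
  simp only [lam, map_div₀, map_mul, map_sub, map_one, map_pow, map_ofNat, map_fw, map_fe]

lemma map_uu₁ (φ : F →+* F') (s z₁ z₂ : F) : φ (uu₁ s z₁ z₂) = uu₁ (φ s) (φ z₁) (φ z₂) := by
  simp only [uu₁, map_add, map_div₀, map_mul, map_one, map_ofNat, map_fw, map_fe]

lemma map_uu₂ (φ : F →+* F') (s z₁ z₂ : F) : φ (uu₂ s z₁ z₂) = uu₂ (φ s) (φ z₁) (φ z₂) := by
  simp only [uu₂, map_add, map_div₀, map_mul, map_one, map_ofNat, map_fw, map_fe]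

lemma rel₂ {s z₁ z₂ : F} (hw : fw s z₁ z₂ ≠ 0) :
    uu₂ s z₁ z₂ ^ 2 - 1 = lam s z₁ z₂ * (1 - z₂ ^ 3) := by
  simp only [uu₂, lam]
  field_simp
  simp only [fw, fe]
  ring

lemma rel₁ {s z₁ z₂ : F} (hw : fw s z₁ z₂ ≠ 0) :
    uu₁ s z₁ z₂ ^ 2 - 1 = lam s z₁ z₂ * (1 - z₁ ^ 3) := by
  simp only [uu₁, lam]
  field_simp
  simp only [fw, fe]
  ring

lemma slope_eq {s z₁ z₂ : F} (h2 : (2 : F) ≠ 0) (hw : fw s z₁ z₂ ≠ 0) (he : fe s z₁ z₂ ≠ 0) :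
    (uu₁ s z₁ z₂ - 1) / (uu₂ s z₁ z₂ - 1) = s := by
  simp only [uu₁, uu₂, add_sub_cancel_left]
  field_simp

/-- recovering the parameter from the points -/
lemma recover {l u₁ u₂ z₁ z₂ : F} (h2 : (2 : F) ≠ 0) (hl : l ≠ 0)
    (h₁ : u₁ ^ 2 - 1 = l * (1 - z₁ ^ 3)) (h₂ : u₂ ^ 2 - 1 = l * (1 - z₂ ^ 3))
    (n₁ : u₁ ≠ 1) (n₂ : u₂ ≠ 1) (n₁₂ : u₁ ≠ u₂) :
    fw ((u₁ - 1) / (u₂ - 1)) z₁ z₂ ≠ 0 ∧ fe ((u₁ - 1) / (u₂ - 1)) z₁ z₂ ≠ 0 ∧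
    lam ((u₁ - 1) / (u₂ - 1)) z₁ z₂ = l ∧ uu₁ ((u₁ - 1) / (u₂ - 1)) z₁ z₂ = u₁ ∧
    uu₂ ((u₁ - 1) / (u₂ - 1)) z₁ z₂ = u₂ := by
  have a0 : u₂ - 1 ≠ 0 := sub_ne_zero.mpr n₂
  have b0 : u₁ - 1 ≠ 0 := sub_ne_zero.mpr n₁
  set s := (u₁ - 1) / (u₂ - 1) with hs
  have hs0 : s ≠ 0 := div_ne_zero b0 a0
  have hs1 : s - 1 ≠ 0 := by
    intro h
    apply n₁₂
    have h1 : s = 1 := by linear_combination h
    rw [hs, div_eq_one_iff_eq a0] at h1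
    linear_combination h1
  have hu1 : u₁ = 1 + s * (u₂ - 1) := by
    rw [hs, div_mul_cancel₀ _ a0]; ring
  have e1 : l * fw s z₁ z₂ = 2 * s * (u₂ - 1) * (s - 1) := by
    have : l * fw s z₁ z₂ = s ^ 2 * (l * (1 - z₂ ^ 3)) - l * (1 - z₁ ^ 3) := by
      simp only [fw]; ring
    rw [this, ← h₁, ← h₂, hu1]
    ring
  have e2 : l * fe s z₁ z₂ = s * (u₂ - 1) ^ 2 * (s - 1) := by
    have : l * fe s z₁ z₂ = l * (1 - z₁ ^ 3) - s * (l * (1 - z₂ ^ 3)) := by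
      simp only [fe]; ring
    rw [this, ← h₁, ← h₂, hu1]
    ring
  have hw : fw s z₁ z₂ ≠ 0 := by
    intro h
    rw [h, mul_zero] at e1
    exact mul_ne_zero (mul_ne_zero (mul_ne_zero h2 hs0) a0) hs1 e1.symm
  have he : fe s z₁ z₂ ≠ 0 := by
    intro h
    rw [h, mul_zero] at e2
    exact mul_ne_zero (mul_ne_zero hs0 (pow_ne_zero _ a0)) hs1 e2.symm
  have e3 : 2 * fe s z₁ z₂ / fw s z₁ z₂ = u₂ - 1 := by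
    rw [div_eq_iff hw]
    apply mul_left_cancel₀ hl
    linear_combination 2 * e2 - (u₂ - 1) * e1
  refine ⟨hw, he, ?_, ?_, ?_⟩
  · rw [lam, div_eq_iff (pow_ne_zero _ hw)]
    apply mul_left_cancel₀ hl
    linear_combination 4 * s * (s - 1) * e2 - (l * fw s z₁ z₂ + 2 * s * (u₂ - 1) * (s - 1)) * e1
  · rw [uu₁, e3, ← hu1]
  · rw [uu₂, e3]; ring

end Pool.Agent.Helper9K9.DG
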