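import Mathlib

/-!
# Heights of rational functions (bounds by total degrees)
-/

set_option autoImplicit false

namespace Pool.Agent.Helper9K9.DG

open MvPolynomial

universe u

variable {K : Type u} [Field K] {σ : Type} 

/-- the element `a` of the field of rational functions is a quotient of two polynomials of total
degree at most `d` -/
def HtLe (a : FractionRing (MvPolynomial σ K)) (d : ℕ) : Prop :=
  ∃ A B : MvPolynomial σ K, B ≠ 0 ∧ A.totalDegree ≤ d ∧ B.totalDegree ≤ d ∧
    a = algebraMap _ (FractionRing (MvPolynomial σ K)) A / algebraMap _ _ B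

lemma algebraMap_ne {B : MvPolynomial σ K} (hB : B ≠ 0) :
    algebraMap (MvPolynomial σ K) (FractionRing (MvPolynomial σ K)) B ≠ 0 := by
  intro h
  exact hB ((IsFractionRing.injective (MvPolynomial σ K) (FractionRing (MvPolynomial σ K)))
    (by rw [h, map_zero]))

namespace HtLe

variable {a b : FractionRing (MvPolynomial σ K)} {d e : ℕ}

lemma mono (h : HtLe a d) (hde : d ≤ e) : HtLe a e := by
  obtain ⟨A, B, hB, h1, h2, h3⟩ := h
  exact ⟨A, B, hB, h1.trans hde, h2.trans hde, h3⟩

lemma of_poly (A : MvPolynomial σ K) (h : A.totalDegree ≤ d) :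
    HtLe (algebraMap _ (FractionRing (MvPolynomial σ K)) A) d :=
  ⟨A, 1, one_ne_zero, h, by simp, by simp⟩

lemma exists_ht (a : FractionRing (MvPolynomial σ K)) : ∃ d, HtLe a d := by
  obtain ⟨A, B, hB, rfl⟩ := IsFractionRing.div_surjective (A := MvPolynomial σ K) a
  exact ⟨max A.totalDegree B.totalDegree, A, B, nonZeroDivisors.ne_zero hB, le_max_left _ _,
    le_max_right _ _, rfl⟩

lemma add (ha : HtLe a d) (hb : HtLe b e) : HtLe (a + b) (d + e) := by
  obtain ⟨A, B, hB, h1, h2, rfl⟩ := ha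
  obtain ⟨A', B', hB', h1', h2', rfl⟩ := hb
  refine ⟨A * B' + B * A', B * B', mul_ne_zero hB hB', ?_, ?_, ?_⟩
  · refine (totalDegree_add _ _).trans (max_le ?_ ?_)
    · exact (totalDegree_mul _ _).trans (by omega)
    · exact (totalDegree_mul _ _).trans (by omega)
  · exact (totalDegree_mul _ _).trans (by omega)
  · rw [div_add_div _ _ (algebraMap_ne hB) (algebraMap_ne hB')]
    simp

lemma neg (ha : HtLe a d) : HtLe (-a) d := by
  obtain ⟨A, B, hB, h1, h2, rfl⟩ := ha
  refine ⟨-A, B, hB, by rwa [totalDegree_neg], h2, ?_⟩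
  rw [map_neg, neg_div]

lemma sub (ha : HtLe a d) (hb : HtLe b e) : HtLe (a - b) (d + e) := by
  rw [sub_eq_add_neg]
  exact ha.add hb.neg

lemma mul (ha : HtLe a d) (hb : HtLe b e) : HtLe (a * b) (d + e) := by
  obtain ⟨A, B, hB, h1, h2, rfl⟩ := ha
  obtain ⟨A', B', hB', h1', h2', rfl⟩ := hb
  refine ⟨A * A', B * B', mul_ne_zero hB hB', ?_, ?_, ?_⟩
  · exact (totalDegree_mul _ _).trans (by omega)
  · exact (totalDegree_mul _ _).trans (by omega)
  · rw [div_mul_div_comm, map_mul, map_mul]

lemma inv (ha : HtLe a d) : HtLe a⁻¹ d := by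
  obtain ⟨A, B, hB, h1, h2, rfl⟩ := ha
  by_cases hA : A = 0
  · subst hA
    refine ⟨0, 1, one_ne_zero, by simp, by simp, by simp⟩
  · exact ⟨B, A, hA, h2, h1, by rw [inv_div]⟩

lemma div (ha : HtLe a d) (hb : HtLe b e) : HtLe (a / b) (d + e) := by
  rw [div_eq_mul_inv]
  exact ha.mul hb.inv

lemma const (c : K) : HtLe (algebraMap K (FractionRing (MvPolynomial σ K)) c) 0 := by
  refine ⟨C c, 1, one_ne_zero, by simp, by simp, ?_⟩
  rw [map_one, div_one, ← MvPolynomial.algebraMap_eq, ← IsScalarTower.algebraMap_apply]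

lemma natCast (n : ℕ) : HtLe (n : FractionRing (MvPolynomial σ K)) 0 := by
  have := const (σ := σ) (n : K)
  rwa [map_natCast] at this

lemma one : HtLe (1 : FractionRing (MvPolynomial σ K)) 0 := by
  have := natCast (K := K) (σ := σ) 1
  rwa [Nat.cast_one] at this

lemma two : HtLe (2 : FractionRing (MvPolynomial σ K)) 0 := by
  have := natCast (K := K) (σ := σ) 2
  exact_mod_cast this

lemma three : HtLe (3 : FractionRing (MvPolynomial σ K)) 0 := by
  have := natCast (K := K) (σ := σ) 3
  exact_mod_cast this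

lemma pow (ha : HtLe a d) (n : ℕ) : HtLe (a ^ n) (n * d) := by
  induction n with
  | zero => simpa using one
  | succ n ih =>
    rw [pow_succ]
    exact (ih.mul ha).mono (by rw [Nat.succ_mul])

end HtLe

end Pool.Agent.Helper9K9.DG
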