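import Pool.Agent.Helper9K9.DG.Crv
import Pool.Agent.Helper9K9.DG.Frm
import Pool.Agent.Helper9K9.DG.Fld

/-!
# The rational self-map on the level of function fields
-/

set_option autoImplicit false

namespace Pool.Agent.Helper9K9.DG

open WeierstrassCurve.Affine MvPolynomial

universe u

section Sub

variable {F : Type u} [Field F] [DecidableEq F] {D : F}

/-- the coordinates of the point lie in the subfield -/
def InM (M : Subfield F) (P : Pt D) : Prop :=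
  P = 0 ∨ ∃ (x y : F) (h : (E D).Nonsingular x y), P = .some x y h ∧ x ∈ M ∧ y ∈ M

lemma InM.some {M : Subfield F} {x y : F} {h : (E D).Nonsingular x y}
    (hP : InM M (.some x y h : Pt D)) : x ∈ M ∧ y ∈ M := by
  rcases hP with h0 | ⟨x', y', hn, h1, hx, hy⟩
  · exact absurd h0 (Point.some_ne_zero _)
  · rw [Point.some.injEq] at h1
    rw [h1.1, h1.2]
    exact ⟨hx, hy⟩

lemma InM.neg {M : Subfield F} {P : Pt D} (h : InM M P) : InM M (-P) := by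
  rcases h with rfl | ⟨x, y, hn, rfl, hx, hy⟩
  · exact Or.inl rfl
  · refine Or.inr ⟨x, (E D).negY x y, (nonsingular_neg ..).mpr hn, rfl, hx, ?_⟩
    rw [negY_eq]
    exact M.neg_mem hy

lemma ofNat_mem' (M : Subfield F) (n : ℕ) : (n : F) ∈ M := natCast_mem M n

lemma InM.add {M : Subfield F} {P Q : Pt D} (hP : InM M P) (hQ : InM M Q) : InM M (P + Q) := by
  rcases hP with rfl | ⟨x₁, y₁, h₁, rfl, hx₁, hy₁⟩
  · rw [zero_add]
    exact hQ
  rcases hQ with rfl | ⟨x₂, y₂, h₂, rfl, hx₂, hy₂⟩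
  · rw [add_zero]
    exact Or.inr ⟨x₁, y₁, h₁, rfl, hx₁, hy₁⟩
  rcases add_cases h₁ h₂ with h0 | ⟨l, x₃, y₃, h₃, hl, hx, hy, hsum⟩
  · exact Or.inl h0
  · have hlM : l ∈ M := by
      have m2 : (2 : F) ∈ M := by exact_mod_cast ofNat_mem' M 2
      have m3 : (3 : F) ∈ M := by exact_mod_cast ofNat_mem' M 3
      rcases hl with rfl | rfl
      · exact M.div_mem (M.sub_mem hy₁ hy₂) (M.sub_mem hx₁ hx₂)
      · exact M.div_mem (M.mul_mem m3 (M.pow_mem hx₁ 2)) (M.mul_mem m2 hy₁)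
    have hx3 : x₃ ∈ M := by
      rw [hx]
      exact M.sub_mem (M.sub_mem (M.pow_mem hlM 2) hx₁) hx₂
    have hy3 : y₃ ∈ M := by
      rw [hy]
      exact M.neg_mem (M.add_mem (M.mul_mem hlM (M.sub_mem hx3 hx₁)) hy₁)
    exact Or.inr ⟨x₃, y₃, h₃, hsum, hx3, hy3⟩

end Sub

open scoped Classical

variable {K : Type u} [Field K]

lemma ff_natCast_ne {N : ℕ} {n : ℕ} (h : (n : K) ≠ 0) : (n : FF K N) ≠ 0 := by
  have : (n : FF K N) = algebraMap K (FF K N) (n : K) := by rw [map_natCast]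
  rw [this]
  exact (_root_.map_ne_zero _).mpr h

lemma ff_two {N : ℕ} (h2 : (2 : K) ≠ 0) : (2 : FF K N) ≠ 0 := by
  have := ff_natCast_ne (N := N) (n := 2) (K := K) (by exact_mod_cast h2)
  exact_mod_cast this

lemma ff_three {N : ℕ} (h3 : (3 : K) ≠ 0) : (3 : FF K N) ≠ 0 := by
  have := ff_natCast_ne (N := N) (n := 3) (K := K) (by exact_mod_cast h3)
  exact_mod_cast this

lemma ff_ne {N : ℕ} (p : MvPolynomial (Fin N) K) (h : eval (fun _ => 0) p ≠ 0) :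
    algebraMap (MvPolynomial (Fin N) K) (FF K N) p ≠ 0 := by
  intro h0
  apply h
  have : p = 0 := (IsFractionRing.injective (MvPolynomial (Fin N) K) (FF K N))
    (by rw [h0, map_zero])
  rw [this, map_zero]

variable (K) in
/-- `λ` -/
noncomputable def ll : FF K 3 := lam (gen K 3 0) (gen K 3 1) (gen K 3 2)
variable (K) in
/-- `u₁` -/
noncomputable def v₁ : FF K 3 := uu₁ (gen K 3 0) (gen K 3 1) (gen K 3 2)
variable (K) in
/-- `u₂` -/
noncomputable def v₂ : FF K 3 := uu₂ (gen K 3 0) (gen K 3 1) (gen K 3 2)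
variable (K) in
/-- the coefficient of the curve -/
noncomputable def Dl : FF K 3 := ll K ^ 2 * (1 + ll K)

variable (K) in
lemma fw_ne : fw (gen K 3 0) (gen K 3 1) (gen K 3 2) ≠ 0 := by
  have := ff_ne (K := K) (X 0 ^ 2 * (1 - X 2 ^ 3) - (1 - X 1 ^ 3) : MvPolynomial (Fin 3) K)
    (by simp)
  simpa [fw, gen] using this

variable (K) in
lemma fe_ne : fe (gen K 3 0) (gen K 3 1) (gen K 3 2) ≠ 0 := by
  have := ff_ne (K := K) ((1 - X 1 ^ 3) - X 0 * (1 - X 2 ^ 3) : MvPolynomial (Fin 3) K)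
    (by simp)
  simpa [fe, gen] using this

variable (K) in
lemma gen_ne_zero (i : Fin 3) : gen K 3 i ≠ 0 := (gen_indep (K := K) (N := 3)).ne_zero i

variable (K) in
lemma gen_ne_one (i : Fin 3) : gen K 3 i - 1 ≠ 0 := by
  have := ff_ne (K := K) (X i - 1 : MvPolynomial (Fin 3) K) (by simp)
  simpa [gen] using this

lemma ff_four {N : ℕ} (h2 : (2 : K) ≠ 0) : (4 : FF K N) ≠ 0 := by
  have : (4 : FF K N) = 2 * 2 := by norm_num
  rw [this]
  exact mul_ne_zero (ff_two h2) (ff_two h2)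

lemma ll_ne (h2 : (2 : K) ≠ 0) : ll K ≠ 0 :=
  div_ne_zero (mul_ne_zero (mul_ne_zero (mul_ne_zero (ff_four h2) (gen_ne_zero K 0))
    (gen_ne_one K 0)) (fe_ne K)) (pow_ne_zero _ (fw_ne K))

lemma one_add_ll_ne : 1 + ll K ≠ 0 := by
  have h1 := ff_ne (K := K) ((X 0 ^ 2 * (1 - X 2 ^ 3) - (1 - X 1 ^ 3)) ^ 2 +
    4 * X 0 * (X 0 - 1) * ((1 - X 1 ^ 3) - X 0 * (1 - X 2 ^ 3)) : MvPolynomial (Fin 3) K)
    (by simp)
  have h2 : 1 + ll K = (fw (gen K 3 0) (gen K 3 1) (gen K 3 2) ^ 2 +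
      4 * gen K 3 0 * (gen K 3 0 - 1) * fe (gen K 3 0) (gen K 3 1) (gen K 3 2)) /
      fw (gen K 3 0) (gen K 3 1) (gen K 3 2) ^ 2 := by
    rw [add_div, div_self (pow_ne_zero _ (fw_ne K)), ll, lam]
  rw [h2]
  apply div_ne_zero _ (pow_ne_zero _ (fw_ne K))
  intro h3
  apply h1
  simp only [map_add, map_sub, map_mul, map_pow, map_one, map_ofNat]
  simpa only [fw, fe, gen] using h3

lemma Dl_ne (h2 : (2 : K) ≠ 0) : Dl K ≠ 0 :=
  mul_ne_zero (pow_ne_zero _ (ll_ne h2)) one_add_ll_ne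

lemma rel_v₁ : v₁ K ^ 2 - 1 = ll K * (1 - gen K 3 1 ^ 3) := rel₁ (fw_ne K)
lemma rel_v₂ : v₂ K ^ 2 - 1 = ll K * (1 - gen K 3 2 ^ 3) := rel₂ (fw_ne K)

lemma pt_eqn {l z u : FF K 3} (h : u ^ 2 - 1 = l * (1 - z ^ 3)) :
    (l * u) ^ 2 = (-l * z) ^ 3 + l ^ 2 * (1 + l) := by
  linear_combination l ^ 2 * h

/-- the point `(-λz, λu)` -/
noncomputable def mkP (h2 : (2 : K) ≠ 0) (h3 : (3 : K) ≠ 0) {z u : FF K 3}
    (h : u ^ 2 - 1 = ll K * (1 - z ^ 3)) : Pt (Dl K) :=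
  .some (-ll K * z) (ll K * u) (ns (ff_two h2) (ff_three h3) (Dl_ne h2) (pt_eqn h))

/-- the first point -/
noncomputable def P₁ (h2 : (2 : K) ≠ 0) (h3 : (3 : K) ≠ 0) : Pt (Dl K) := mkP h2 h3 rel_v₁
/-- the second point -/
noncomputable def P₂ (h2 : (2 : K) ≠ 0) (h3 : (3 : K) ≠ 0) : Pt (Dl K) := mkP h2 h3 rel_v₂
/-- the section -/
noncomputable def sg (h2 : (2 : K) ≠ 0) (h3 : (3 : K) ≠ 0) : Pt (Dl K) :=
  mkP h2 h3 (z := 1) (u := 1) (by ring)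

lemma gens_mem {M : Subfield (FF K 3)} (h2 : (2 : K) ≠ 0) (h3 : (3 : K) ≠ 0) (hl : ll K ∈ M)
    (hP₁ : InM M (P₁ h2 h3)) (hP₂ : InM M (P₂ h2 h3)) : ∀ i, gen K 3 i ∈ M := by
  obtain ⟨a1, b1⟩ := InM.some hP₁
  obtain ⟨a2, b2⟩ := InM.some hP₂
  have hl0 := ll_ne h2 (K := K)
  have hln : -ll K ∈ M := M.neg_mem hl
  have hln0 : -ll K ≠ 0 := neg_ne_zero.mpr hl0
  have z1 : gen K 3 1 ∈ M := by
    have := M.div_mem a1 hln
    rwa [mul_div_cancel_left₀ _ hln0] at this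
  have z2 : gen K 3 2 ∈ M := by
    have := M.div_mem a2 hln
    rwa [mul_div_cancel_left₀ _ hln0] at this
  have w1 : v₁ K ∈ M := by
    have := M.div_mem b1 hl
    rwa [mul_div_cancel_left₀ _ hl0] at this
  have w2 : v₂ K ∈ M := by
    have := M.div_mem b2 hl
    rwa [mul_div_cancel_left₀ _ hl0] at this
  have z0 : gen K 3 0 ∈ M := by
    rw [← slope_eq (ff_two h2) (fw_ne K) (fe_ne K)]
    exact M.div_mem (M.sub_mem w1 M.one_mem) (M.sub_mem w2 M.one_mem)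
  intro i
  fin_cases i
  · exact z0
  · exact z1
  · exact z2

/-- the images of the two points -/
noncomputable def Q₂ (h2 : (2 : K) ≠ 0) (h3 : (3 : K) ≠ 0) : Pt (Dl K) := P₂ h2 h3 + sg h2 h3
/-- the images of the two points -/
noncomputable def Q₁ (h2 : (2 : K) ≠ 0) (h3 : (3 : K) ≠ 0) : Pt (Dl K) :=
  P₁ h2 h3 + (P₂ h2 h3 + P₂ h2 h3) + sg h2 h3

lemma gens_mem' {M : Subfield (FF K 3)} (h2 : (2 : K) ≠ 0) (h3 : (3 : K) ≠ 0) (hl : ll K ∈ M)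
    (hQ₁ : InM M (Q₁ h2 h3)) (hQ₂ : InM M (Q₂ h2 h3)) : ∀ i, gen K 3 i ∈ M := by
  have hs : InM M (sg h2 h3) := by
    refine Or.inr ⟨_, _, _, rfl, ?_, ?_⟩
    · rw [mul_one]; exact M.neg_mem hl
    · rw [mul_one]; exact hl
  have hP₂ : InM M (P₂ h2 h3) := by
    have : P₂ h2 h3 = Q₂ h2 h3 + -sg h2 h3 := by rw [Q₂]; abel
    rw [this]
    exact hQ₂.add hs.neg
  have hP₁ : InM M (P₁ h2 h3) := by
    have : P₁ h2 h3 = Q₁ h2 h3 + (-P₂ h2 h3 + -P₂ h2 h3) + -sg h2 h3 := by rw [Q₁]; abel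
    rw [this]
    exact (hQ₁.add (hP₂.neg.add hP₂.neg)).add hs.neg
  exact gens_mem h2 h3 hl hP₁ hP₂

/-- the images are in general position -/
lemma nondeg (h2 : (2 : K) ≠ 0) (h3 : (3 : K) ≠ 0) :
    ∃ (x₁ y₁ : FF K 3) (n₁ : (E (Dl K)).Nonsingular x₁ y₁) (x₂ y₂ : FF K 3)
      (n₂ : (E (Dl K)).Nonsingular x₂ y₂),
      Q₁ h2 h3 = .some x₁ y₁ n₁ ∧ Q₂ h2 h3 = .some x₂ y₂ n₂ ∧ y₁ ≠ ll K ∧ y₂ ≠ ll K ∧ y₁ ≠ y₂ := by
  -- the second image is not zero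
  have hDM : ∀ M : Subfield (FF K 3), ll K ∈ M → Dl K ∈ M := fun M hM =>
    M.mul_mem (M.pow_mem hM 2) (M.add_mem M.one_mem hM)
  have hyM : ∀ (M : Subfield (FF K 3)), (∀ (x : FF K 3) (n : ℕ), 0 < n → x ^ n ∈ M → x ∈ M) →
      ll K ∈ M → ∀ x y, (E (Dl K)).Nonsingular x y → x ∈ M → y ∈ M := by
    intro M hp hM x y hn hx
    apply hp y 2 (by norm_num)
    rw [eqn hn]
    exact M.add_mem (M.pow_mem hx 3) (hDM M hM)
  have hxM : ∀ (M : Subfield (FF K 3)), (∀ (x : FF K 3) (n : ℕ), 0 < n → x ^ n ∈ M → x ∈ M) →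
      ll K ∈ M → ∀ x y, (E (Dl K)).Nonsingular x y → y ∈ M → x ∈ M := by
    intro M hp hM x y hn hy
    apply hp x 3 (by norm_num)
    have : x ^ 3 = y ^ 2 - Dl K := by rw [eqn hn]; ring
    rw [this]
    exact M.sub_mem (M.pow_mem hy 2) (hDM M hM)
  have hQ₂ : Q₂ h2 h3 ≠ 0 := by
    intro h0
    have h1 : P₂ h2 h3 = - sg h2 h3 := by
      rw [Q₂] at h0
      exact eq_neg_of_add_eq_zero_left h0
    have h4 : (- sg h2 h3 : Pt (Dl K)) = .some (-ll K * 1) ((E (Dl K)).negY (-ll K * 1) (ll K * 1))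
      ((nonsingular_neg ..).mpr (ns (ff_two h2) (ff_three h3) (Dl_ne h2) (pt_eqn (by ring)))) := rfl
    rw [h4, P₂, mkP, Point.some.injEq] at h1
    have h5 := mul_left_cancel₀ (neg_ne_zero.mpr (ll_ne h2 (K := K))) h1.1
    exact gen_ne_one K 2 (by rw [h5, sub_self])
  obtain ⟨x₂, y₂, n₂, e₂⟩ : ∃ (x₂ y₂ : FF K 3) (n₂ : (E (Dl K)).Nonsingular x₂ y₂),
      Q₂ h2 h3 = .some x₂ y₂ n₂ := by
    cases h : Q₂ h2 h3 with
    | zero => exact absurd h hQ₂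
    | some x y hn => exact ⟨x, y, hn, rfl⟩
  have hQ₁ : Q₁ h2 h3 ≠ 0 := by
    intro h0
    obtain ⟨M, hK, hl, hθ, hp, hno⟩ := exists_subfield (ll K) x₂
    apply hno
    apply gens_mem' h2 h3 hl (Or.inl h0)
    exact Or.inr ⟨x₂, y₂, n₂, e₂, hθ, hyM M hp hl _ _ n₂ hθ⟩
  obtain ⟨x₁, y₁, n₁, e₁⟩ : ∃ (x₁ y₁ : FF K 3) (n₁ : (E (Dl K)).Nonsingular x₁ y₁),
      Q₁ h2 h3 = .some x₁ y₁ n₁ := by
    cases h : Q₁ h2 h3 with
    | zero => exact absurd h hQ₁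
    | some x y hn => exact ⟨x, y, hn, rfl⟩
  refine ⟨x₁, y₁, n₁, x₂, y₂, n₂, e₁, e₂, ?_, ?_, ?_⟩
  · rintro h1
    obtain ⟨M, hK, hl, hθ, hp, hno⟩ := exists_subfield (ll K) x₂
    apply hno
    have hy : y₁ ∈ M := h1 ▸ hl
    apply gens_mem' h2 h3 hl (Or.inr ⟨x₁, y₁, n₁, e₁, hxM M hp hl _ _ n₁ hy, hy⟩)
    exact Or.inr ⟨x₂, y₂, n₂, e₂, hθ, hyM M hp hl _ _ n₂ hθ⟩
  · rintro h1
    obtain ⟨M, hK, hl, hθ, hp, hno⟩ := exists_subfield (ll K) x₁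
    apply hno
    have hy : y₂ ∈ M := h1 ▸ hl
    apply gens_mem' h2 h3 hl (Or.inr ⟨x₁, y₁, n₁, e₁, hθ, hyM M hp hl _ _ n₁ hθ⟩)
    exact Or.inr ⟨x₂, y₂, n₂, e₂, hxM M hp hl _ _ n₂ hy, hy⟩
  · rintro h1
    obtain ⟨M, hK, hl, hθ, hp, hno⟩ := exists_subfield (ll K) x₂
    apply hno
    have hy₂ : y₂ ∈ M := hyM M hp hl _ _ n₂ hθ
    have hy : y₁ ∈ M := h1 ▸ hy₂
    apply gens_mem' h2 h3 hl (Or.inr ⟨x₁, y₁, n₁, e₁, hxM M hp hl _ _ n₁ hy, hy⟩)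
    exact Or.inr ⟨x₂, y₂, n₂, e₂, hθ, hy₂⟩

/-- **the rational self-map** on the level of function fields -/
theorem exists_phi (h2 : (2 : K) ≠ 0) (h3 : (3 : K) ≠ 0) :
    ∃ (φ : FF K 3 →ₐ[K] FF K 3) (hD : (φ : FF K 3 →+* FF K 3) (Dl K) = Dl K),
      φ (ll K) = ll K ∧ AlgebraicIndependent K (fun i => φ (gen K 3 i)) ∧
      Function.Surjective φ ∧
      mapPt (Dl K) (φ : FF K 3 →+* FF K 3) (Dl K) hD (P₁ h2 h3) = Q₁ h2 h3 ∧
      mapPt (Dl K) (φ : FF K 3 →+* FF K 3) (Dl K) hD (P₂ h2 h3) = Q₂ h2 h3 ∧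
      mapPt (Dl K) (φ : FF K 3 →+* FF K 3) (Dl K) hD (sg h2 h3) = sg h2 h3 := by
  obtain ⟨x₁, y₁, n₁, x₂, y₂, n₂, e₁, e₂, m₁, m₂, m₁₂⟩ := nondeg h2 h3
  have hl0 := ll_ne h2 (K := K)
  set l := ll K with hl
  have r₁ : (y₁ / l) ^ 2 - 1 = l * (1 - (-x₁ / l) ^ 3) := by
    have := eqn n₁
    rw [Dl, ← hl] at this
    field_simp
    linear_combination this
  have r₂ : (y₂ / l) ^ 2 - 1 = l * (1 - (-x₂ / l) ^ 3) := by
    have := eqn n₂
    rw [Dl, ← hl] at this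
    field_simp
    linear_combination this
  have k₁ : y₁ / l ≠ 1 := by
    intro h
    rw [div_eq_one_iff_eq hl0] at h
    exact m₁ h
  have k₂ : y₂ / l ≠ 1 := by
    intro h
    rw [div_eq_one_iff_eq hl0] at h
    exact m₂ h
  have k₁₂ : y₁ / l ≠ y₂ / l := by
    intro h
    rw [div_left_inj' hl0] at h
    exact m₁₂ h
  obtain ⟨hw, he, hlam, hu₁, hu₂⟩ := recover (ff_two h2) hl0 r₁ r₂ k₁ k₂ k₁₂
  set s' := (y₁ / l - 1) / (y₂ / l - 1) with hs'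
  set z₁' := -x₁ / l with hz₁'
  set z₂' := -x₂ / l with hz₂'
  let y : Fin 3 → FF K 3 := ![s', z₁', z₂']
  have hfeM : ∀ (M : Subfield (FF K 3)) (s z z' : FF K 3), s ∈ M → z ∈ M → z' ∈ M →
      fe s z z' ∈ M ∧ fw s z z' ∈ M := by
    intro M s z z' hs hz hz'
    constructor
    · exact M.sub_mem (M.sub_mem M.one_mem (M.pow_mem hz 3))
        (M.mul_mem hs (M.sub_mem M.one_mem (M.pow_mem hz' 3)))
    · exact M.sub_mem (M.mul_mem (M.pow_mem hs 2) (M.sub_mem M.one_mem (M.pow_mem hz' 3)))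
        (M.sub_mem M.one_mem (M.pow_mem hz 3))
  have htop : IntermediateField.adjoin K (Set.range y) = ⊤ := by
    set A := IntermediateField.adjoin K (Set.range y) with hA
    set M := A.toSubfield with hM
    have q0 : s' ∈ M := IntermediateField.subset_adjoin K _ ⟨0, rfl⟩
    have q1 : z₁' ∈ M := IntermediateField.subset_adjoin K _ ⟨1, rfl⟩
    have q2 : z₂' ∈ M := IntermediateField.subset_adjoin K _ ⟨2, rfl⟩
    obtain ⟨q3, q4⟩ := hfeM M _ _ _ q0 q1 q2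
    have c2 : (2 : FF K 3) ∈ M := by exact_mod_cast ofNat_mem' M 2
    have c4 : (4 : FF K 3) ∈ M := by exact_mod_cast ofNat_mem' M 4
    have hlM : ll K ∈ M := by
      rw [← hl, ← hlam]
      exact M.div_mem (M.mul_mem (M.mul_mem (M.mul_mem c4 q0) (M.sub_mem q0 M.one_mem)) q3)
        (M.pow_mem q4 2)
    have g1 : y₁ / l ∈ M := by
      rw [← hu₁]
      exact M.add_mem M.one_mem (M.mul_mem q0 (M.div_mem (M.mul_mem c2 q3) q4))
    have g2 : y₂ / l ∈ M := by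
      rw [← hu₂]
      exact M.add_mem M.one_mem (M.div_mem (M.mul_mem c2 q3) q4)
    have hy1 : y₁ ∈ M := by
      have := M.mul_mem g1 hlM
      rwa [← hl, div_mul_cancel₀ _ hl0] at this
    have hy2 : y₂ ∈ M := by
      have := M.mul_mem g2 hlM
      rwa [← hl, div_mul_cancel₀ _ hl0] at this
    have hx1 : x₁ ∈ M := by
      have := M.neg_mem (M.mul_mem q1 hlM)
      rwa [← hl, hz₁', div_mul_cancel₀ _ hl0, neg_neg] at this
    have hx2 : x₂ ∈ M := by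
      have := M.neg_mem (M.mul_mem q2 hlM)
      rwa [← hl, hz₂', div_mul_cancel₀ _ hl0, neg_neg] at this
    have hall := gens_mem' h2 h3 hlM (Or.inr ⟨x₁, y₁, n₁, e₁, hx1, hy1⟩)
      (Or.inr ⟨x₂, y₂, n₂, e₂, hx2, hy2⟩)
    rw [eq_top_iff, ← gen_adjoin, IntermediateField.adjoin_le_iff]
    rintro _ ⟨i, rfl⟩
    exact hall i
  have hind := indep_of_adjoin htop
  have hyinj : Function.Injective (aeval y : MvPolynomial (Fin 3) K →ₐ[K] FF K 3) := hind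
  let φ : FF K 3 →ₐ[K] FF K 3 := IsFractionRing.liftAlgHom hyinj
  have hφ : ∀ i, φ (gen K 3 i) = y i := by
    intro i
    show IsFractionRing.lift hyinj (algebraMap _ (FF K 3) (X i)) = y i
    rw [IsFractionRing.lift_algebraMap]
    simp
  have hφ0 : φ (gen K 3 0) = s' := hφ 0
  have hφ1 : φ (gen K 3 1) = z₁' := hφ 1
  have hφ2 : φ (gen K 3 2) = z₂' := hφ 2
  have hφl : φ (ll K) = ll K := by
    have := map_lam (φ : FF K 3 →+* FF K 3) (gen K 3 0) (gen K 3 1) (gen K 3 2)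
    rw [RingHom.coe_coe] at this
    rw [ll, this, hφ0, hφ1, hφ2, hlam, hl, ll]
  have hφv1 : φ (v₁ K) = y₁ / l := by
    have := map_uu₁ (φ : FF K 3 →+* FF K 3) (gen K 3 0) (gen K 3 1) (gen K 3 2)
    rw [RingHom.coe_coe] at this
    rw [v₁, this, hφ0, hφ1, hφ2, hu₁]
  have hφv2 : φ (v₂ K) = y₂ / l := by
    have := map_uu₂ (φ : FF K 3 →+* FF K 3) (gen K 3 0) (gen K 3 1) (gen K 3 2)
    rw [RingHom.coe_coe] at this
    rw [v₂, this, hφ0, hφ1, hφ2, hu₂]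
  have hD : (φ : FF K 3 →+* FF K 3) (Dl K) = Dl K := by
    rw [RingHom.coe_coe, Dl, map_mul, map_pow, map_add, map_one, hφl]
  refine ⟨φ, hD, hφl, ?_, ?_, ?_, ?_, ?_⟩
  · have : (fun i => φ (gen K 3 i)) = y := funext hφ
    rw [this]
    exact hind
  · have hr : IntermediateField.adjoin K (Set.range y) ≤ φ.fieldRange := by
      rw [IntermediateField.adjoin_le_iff]
      rintro _ ⟨i, rfl⟩
      exact ⟨gen K 3 i, hφ i⟩
    rw [htop, top_le_iff] at hr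
    intro z
    have hz : z ∈ φ.fieldRange := by rw [hr]; trivial
    exact hz
  · rw [e₁, P₁, mkP]
    obtain ⟨h', h1⟩ := mapPt_some (D := Dl K) (φ := (φ : FF K 3 →+* FF K 3)) (D' := Dl K) (hD := hD)
      (ns (ff_two h2) (ff_three h3) (Dl_ne h2) (pt_eqn rel_v₁))
    rw [h1, Point.some.injEq]
    constructor
    · rw [RingHom.coe_coe, map_mul, map_neg, hφl, hφ1, hz₁', ← hl]
      field_simp
    · rw [RingHom.coe_coe, map_mul, hφl, hφv1, ← hl]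
      field_simp
  · rw [e₂, P₂, mkP]
    obtain ⟨h', h1⟩ := mapPt_some (D := Dl K) (φ := (φ : FF K 3 →+* FF K 3)) (D' := Dl K) (hD := hD)
      (ns (ff_two h2) (ff_three h3) (Dl_ne h2) (pt_eqn rel_v₂))
    rw [h1, Point.some.injEq]
    constructor
    · rw [RingHom.coe_coe, map_mul, map_neg, hφl, hφ2, hz₂', ← hl]
      field_simp
    · rw [RingHom.coe_coe, map_mul, hφl, hφv2, ← hl]
      field_simp
  · rw [sg, mkP]
    obtain ⟨h', h1⟩ := mapPt_some (D := Dl K) (φ := (φ : FF K 3 →+* FF K 3)) (D' := Dl K) (hD := hD)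
      (ns (ff_two h2) (ff_three h3) (Dl_ne h2) (pt_eqn (z := 1) (u := 1) (l := ll K) (by ring)))
    rw [h1, Point.some.injEq]
    constructor
    · rw [RingHom.coe_coe, map_mul, map_neg, hφl, map_one]
    · rw [RingHom.coe_coe, map_mul, hφl, map_one]

end Pool.Agent.Helper9K9.DG
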