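import Pool.Agent.Helper9K9.DG.Ht
import Pool.Agent.Helper9K9.DG.Crv

/-!
# Degrees of the coordinates of sums and multiples of points
-/

set_option autoImplicit false

namespace Pool.Agent.Helper9K9.DG

open WeierstrassCurve.Affine MvPolynomial

universe u

variable {K : Type u} [Field K] {σ : Type} {D : FractionRing (MvPolynomial σ K)}
  [DecidableEq (FractionRing (MvPolynomial σ K))]

/-- the coordinates of the point have degree at most `d` -/
def PLe (P : Pt D) (d : ℕ) : Prop :=
  P = 0 ∨ ∃ (x y : FractionRing (MvPolynomial σ K)) (h : (E D).Nonsingular x y),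
    P = .some x y h ∧ HtLe x d ∧ HtLe y d

lemma PLe.mono {P : Pt D} {d e : ℕ} (h : PLe P d) (hde : d ≤ e) : PLe P e := by
  rcases h with h | ⟨x, y, hn, h, hx, hy⟩
  · exact Or.inl h
  · exact Or.inr ⟨x, y, hn, h, hx.mono hde, hy.mono hde⟩

lemma PLe.zero (d : ℕ) : PLe (0 : Pt D) d := Or.inl rfl

lemma PLe.some {x y : FractionRing (MvPolynomial σ K)} {h : (E D).Nonsingular x y} {d : ℕ}
    (hP : PLe (.some x y h : Pt D) d) : HtLe x d ∧ HtLe y d := by
  rcases hP with h0 | ⟨x', y', hn, h1, hx, hy⟩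
  · exact absurd h0 (Point.some_ne_zero _)
  · rw [Point.some.injEq] at h1
    rw [h1.1, h1.2]
    exact ⟨hx, hy⟩

lemma PLe.exists (P : Pt D) : ∃ d, PLe P d := by
  cases P with
  | zero => exact ⟨0, Or.inl rfl⟩
  | some x y h =>
    obtain ⟨d, hd⟩ := HtLe.exists_ht x
    obtain ⟨e, he⟩ := HtLe.exists_ht y
    exact ⟨max d e, Or.inr ⟨x, y, h, rfl, hd.mono (le_max_left _ _), he.mono (le_max_right _ _)⟩⟩

lemma PLe.neg {P : Pt D} {d : ℕ} (h : PLe P d) : PLe (-P) d := by
  rcases h with rfl | ⟨x, y, hn, rfl, hx, hy⟩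
  · exact Or.inl rfl
  · refine Or.inr ⟨x, (E D).negY x y, (nonsingular_neg ..).mpr hn, rfl, hx, ?_⟩
    rw [negY_eq]
    exact hy.neg

lemma PLe.add {P Q : Pt D} {d e : ℕ} (hP : PLe P d) (hQ : PLe Q e) : PLe (P + Q) (12 * (d + e)) := by
  rcases hP with rfl | ⟨x₁, y₁, h₁, rfl, hx₁, hy₁⟩
  · rw [zero_add]
    exact hQ.mono (by omega)
  rcases hQ with rfl | ⟨x₂, y₂, h₂, rfl, hx₂, hy₂⟩
  · rw [add_zero]
    exact PLe.mono (Or.inr ⟨x₁, y₁, h₁, rfl, hx₁, hy₁⟩) (by omega)
  rcases add_cases h₁ h₂ with h0 | ⟨l, x₃, y₃, h₃, hl, hx, hy, hsum⟩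
  · rw [h0]
    exact PLe.zero _
  · have hlh : HtLe l (3 * (d + e)) := by
      rcases hl with rfl | rfl
      · exact ((hy₁.sub hy₂).div (hx₁.sub hx₂)).mono (by omega)
      · exact ((HtLe.three.mul (hx₁.pow 2)).div (HtLe.two.mul hy₁)).mono (by omega)
    have hx3 : HtLe x₃ (7 * (d + e)) := by
      rw [hx]
      exact (((hlh.pow 2).sub hx₁).sub hx₂).mono (by omega)
    have hy3 : HtLe y₃ (12 * (d + e)) := by
      rw [hy]
      exact ((hlh.mul (hx3.sub hx₁)).add hy₁).neg.mono (by omega)
    exact Or.inr ⟨x₃, y₃, h₃, hsum, hx3.mono (by omega), hy3⟩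

lemma PLe.sub {P Q : Pt D} {d e : ℕ} (hP : PLe P d) (hQ : PLe Q e) : PLe (P - Q) (12 * (d + e)) := by
  rw [sub_eq_add_neg]
  exact hP.add hQ.neg

/-- the coordinates of a multiple have polynomially bounded degree -/
lemma PLe.nsmul {P : Pt D} {d : ℕ} (hP : PLe P d) (n : ℕ) : PLe (n • P) (n ^ 9 * d) := by
  have key : ∀ n : ℕ, 1 ≤ n → PLe (n • P) (512 ^ (Nat.log 2 n) * d) := by
    intro n
    induction n using Nat.strong_induction_on with
    | _ n ih =>
      intro hn
      rcases Nat.lt_or_ge n 2 with h | h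
      · have : n = 1 := by omega
        subst this
        simpa using hP
      · have hq : 1 ≤ n / 2 := by omega
        have hlt : n / 2 < n := by omega
        have h1 := ih (n / 2) hlt hq
        have hlog : Nat.log 2 n = Nat.log 2 (n / 2) + 1 := by
          rw [Nat.log_div_base]
          have : 1 ≤ Nat.log 2 n := Nat.log_pos (by norm_num) h
          omega
        rw [hlog, pow_succ]
        set B := 512 ^ Nat.log 2 (n / 2) with hB
        have hB1 : 1 ≤ B := Nat.one_le_pow _ _ (by norm_num)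
        have h2 : PLe ((n / 2) • P + (n / 2) • P) (24 * (B * d)) := (h1.add h1).mono (by omega)
        have hd : d ≤ B * d := Nat.le_mul_of_pos_left d (by omega)
        rcases Nat.mod_two_eq_zero_or_one n with hm | hm
        · have : n • P = (n / 2) • P + (n / 2) • P := by
            rw [← add_nsmul]
            congr 1
            omega
          rw [this]
          refine h2.mono ?_
          calc 24 * (B * d) ≤ 512 * (B * d) := Nat.mul_le_mul_right _ (by norm_num)
            _ = B * 512 * d := by ring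
        · have : n • P = ((n / 2) • P + (n / 2) • P) + P := by
            rw [← add_nsmul, ← succ_nsmul]
            congr 1
            omega
          rw [this]
          refine (h2.add hP).mono ?_
          calc 12 * (24 * (B * d) + d) ≤ 12 * (24 * (B * d) + B * d) := by omega
            _ = 300 * (B * d) := by ring
            _ ≤ 512 * (B * d) := Nat.mul_le_mul_right _ (by norm_num)
            _ = B * 512 * d := by ring
  rcases Nat.eq_zero_or_pos n with h | h
  · subst h
    rw [zero_nsmul]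
    exact PLe.zero _
  · refine (key n h).mono (Nat.mul_le_mul_right d ?_)
    calc 512 ^ Nat.log 2 n = (2 ^ Nat.log 2 n) ^ 9 := by
          rw [← pow_mul, mul_comm, pow_mul]
          norm_num
      _ ≤ n ^ 9 := Nat.pow_le_pow_left (Nat.pow_log_le_self 2 (by omega)) 9

end Pool.Agent.Helper9K9.DG
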