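import Pool.Agent.Helper9K9.DG.Comp
import Pool.Agent.Helper9K9.DG.Chain
import Pool.Agent.Helper9K9.DG.Sum
import Pool.Agent.Helper9K9.DG.Map

/-!
# Lower bounds for the degrees of the multiples of the section
-/

set_option autoImplicit false

namespace Pool.Agent.Helper9K9.DG

open WeierstrassCurve.Affine

open scoped Classical

universe u

variable {K : Type u} [Field K]

variable (K) in
/-- polynomials in three variables as polynomials in the first variable -/
noncomputable def psi : MvPolynomial (Fin 3) K →+* Polynomial (FF K 2) :=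
  (Polynomial.mapRingHom (algebraMap (MvPolynomial (Fin 2) K) (FF K 2))).comp
    (MvPolynomial.finSuccEquiv K 2 : MvPolynomial (Fin 3) K →+* Polynomial (MvPolynomial (Fin 2) K))

lemma psi_apply (A : MvPolynomial (Fin 3) K) : psi K A =
    (MvPolynomial.finSuccEquiv K 2 A).map (algebraMap (MvPolynomial (Fin 2) K) (FF K 2)) := rfl

lemma psi_inj : Function.Injective (psi K) := by
  intro A B h
  rw [psi_apply, psi_apply] at h
  have h1 := Polynomial.map_injective _
    (IsFractionRing.injective (MvPolynomial (Fin 2) K) (FF K 2)) h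
  exact (MvPolynomial.finSuccEquiv K 2).injective h1

lemma psi_natDegree (A : MvPolynomial (Fin 3) K) : (psi K A).natDegree ≤ A.totalDegree := by
  rw [psi_apply]
  refine Polynomial.natDegree_map_le.trans ?_
  rw [MvPolynomial.natDegree_finSuccEquiv]
  exact MvPolynomial.degreeOf_le_totalDegree A 0

lemma psi_X0 : psi K (MvPolynomial.X 0) = Polynomial.X := by
  rw [psi_apply, MvPolynomial.finSuccEquiv_X_zero, Polynomial.map_X]

lemma psi_X1 : psi K (MvPolynomial.X 1) = Polynomial.C (gen K 2 0) := by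
  have : (MvPolynomial.X 1 : MvPolynomial (Fin 3) K) = MvPolynomial.X (Fin.succ 0) := rfl
  rw [psi_apply, this, MvPolynomial.finSuccEquiv_X_succ, Polynomial.map_C]
  rfl

lemma psi_X2 : psi K (MvPolynomial.X 2) = Polynomial.C (gen K 2 1) := by
  have : (MvPolynomial.X 2 : MvPolynomial (Fin 3) K) = MvPolynomial.X (Fin.succ 1) := rfl
  rw [psi_apply, this, MvPolynomial.finSuccEquiv_X_succ, Polynomial.map_C]
  rfl

lemma theta_inj : Function.Injective
    ((algebraMap (Polynomial (FF K 2)) (RatFunc (FF K 2))).comp (psi K)) :=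
  (RatFunc.algebraMap_injective (FF K 2)).comp psi_inj

variable (K) in
/-- the field of rational functions in three variables as a field of rational functions in one
variable -/
noncomputable def theta : FF K 3 →+* RatFunc (FF K 2) := IsFractionRing.lift (theta_inj (K := K))

lemma theta_algebraMap (A : MvPolynomial (Fin 3) K) :
    theta K (algebraMap (MvPolynomial (Fin 3) K) (FF K 3) A) =
      algebraMap (Polynomial (FF K 2)) (RatFunc (FF K 2)) (psi K A) := by
  rw [theta, IsFractionRing.lift_algebraMap]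
  rfl

lemma rht_theta {x : FF K 3} {B : ℕ} (hx : HtLe x B) : rht (theta K x) ≤ B := by
  obtain ⟨A, A', hA', h1, h2, rfl⟩ := hx
  rw [map_div₀, theta_algebraMap, theta_algebraMap]
  apply rht_div_le
  · intro h
    exact hA' (psi_inj (by rw [h, map_zero]))
  · exact (psi_natDegree A).trans h1
  · exact (psi_natDegree A').trans h2

lemma theta_gen0 : theta K (gen K 3 0) = algebraMap _ _ (Polynomial.X : Polynomial (FF K 2)) := by
  rw [gen, theta_algebraMap, psi_X0]

lemma theta_gen1 : theta K (gen K 3 1) =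
    algebraMap _ _ (Polynomial.C (gen K 2 0) : Polynomial (FF K 2)) := by
  rw [gen, theta_algebraMap, psi_X1]

lemma theta_gen2 : theta K (gen K 3 2) =
    algebraMap _ _ (Polynomial.C (gen K 2 1) : Polynomial (FF K 2)) := by
  rw [gen, theta_algebraMap, psi_X2]

lemma theta_ll_ne (h2 : (2 : K) ≠ 0) : ¬ ∃ c, theta K (ll K) = RatFunc.C c := by
  rintro ⟨c, hc⟩
  have hw : theta K (fw (gen K 3 0) (gen K 3 1) (gen K 3 2)) ≠ 0 := by
    intro h
    exact fw_ne K ((theta K).injective (by rw [h, map_zero]))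
  have h1 : theta K (ll K) * theta K (fw (gen K 3 0) (gen K 3 1) (gen K 3 2)) ^ 2 =
      theta K (4 * gen K 3 0 * (gen K 3 0 - 1) * fe (gen K 3 0) (gen K 3 1) (gen K 3 2)) := by
    rw [ll, lam, map_div₀, map_pow, div_mul_cancel₀ _ (pow_ne_zero _ hw)]
  rw [hc, map_fw, map_mul, map_mul, map_mul, map_sub, map_fe, theta_gen0, theta_gen1, theta_gen2,
    map_one, map_ofNat] at h1
  have e1 : (RatFunc.C c : RatFunc (FF K 2)) = algebraMap _ _ (Polynomial.C c) :=
    (RatFunc.algebraMap_C c).symm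
  rw [e1] at h1
  simp only [fw, fe] at h1
  have h3 : Polynomial.C c * (Polynomial.X ^ 2 * (1 - Polynomial.C (gen K 2 1) ^ 3) -
      (1 - Polynomial.C (gen K 2 0) ^ 3)) ^ 2 =
      4 * Polynomial.X * (Polynomial.X - 1) * ((1 - Polynomial.C (gen K 2 0) ^ 3) -
        Polynomial.X * (1 - Polynomial.C (gen K 2 1) ^ 3)) := by
    apply RatFunc.algebraMap_injective (FF K 2)
    simpa only [map_mul, map_sub, map_pow, map_one, map_ofNat] using h1
  have h4 := congrArg (Polynomial.eval 0) h3
  simp only [Polynomial.eval_mul, Polynomial.eval_C, Polynomial.eval_pow, Polynomial.eval_sub,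
    Polynomial.eval_X, Polynomial.eval_one] at h4
  have hg : (1 : FF K 2) - gen K 2 0 ^ 3 ≠ 0 := by
    have := ff_ne (K := K) (1 - MvPolynomial.X 0 ^ 3 : MvPolynomial (Fin 2) K) (by simp)
    simpa [gen] using this
  have h5 : c * (1 - gen K 2 0 ^ 3) ^ 2 = 0 := by
    linear_combination h4
  have h6 : c = 0 := (mul_eq_zero.mp h5).resolve_right (pow_ne_zero _ hg)
  rw [h6, map_zero] at hc
  exact ll_ne h2 ((theta K).injective (by rw [hc, map_zero]))

/-- **lower bound for the degrees of the multiples of the section** -/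
theorem low (h2 : (2 : K) ≠ 0) (h3 : (3 : K) ≠ 0) (j B : ℕ)
    (hB : PLe ((2 ^ (j + 2)) • sg h2 h3) B) : 3 + 3 * 4 ^ j ≤ B := by
  have h2' : (2 : FF K 2) ≠ 0 := ff_two h2
  have h3' : (3 : FF K 2) ≠ 0 := ff_three h3
  obtain ⟨Ψ, hX, hΨ⟩ := comp_height (theta K (ll K)) (theta_ll_ne h2)
  have hD : (Ψ : RatFunc (FF K 2) →+* RatFunc (FF K 2)) (DT (FF K 2)) = theta K (Dl K) := by
    rw [RingHom.coe_coe, DT, Dl, map_mul, map_pow, map_add, map_one, hX, map_mul, map_pow, map_add,
      map_one]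
  have hsg : mapPt (Dl K) (theta K) (theta K (Dl K)) rfl (sg h2 h3) =
      mapPt (DT (FF K 2)) (Ψ : RatFunc (FF K 2) →+* RatFunc (FF K 2)) (theta K (Dl K)) hD
        (sigT h2' h3') := by
    rw [sg, mkP, sigT]
    obtain ⟨n1, e1⟩ := mapPt_some (D := Dl K) (φ := theta K) (D' := theta K (Dl K)) (hD := rfl)
      (ns (ff_two h2) (ff_three h3) (Dl_ne h2) (pt_eqn (z := 1) (u := 1) (l := ll K) (by ring)))
    obtain ⟨n2, e2⟩ := mapPt_some (D := DT (FF K 2))
      (φ := (Ψ : RatFunc (FF K 2) →+* RatFunc (FF K 2))) (D' := theta K (Dl K)) (hD := hD)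
      (ns (two_ratFunc h2') (three_ratFunc h3') DT_ne
      (show (RatFunc.X : RatFunc (FF K 2)) ^ 2 = (-RatFunc.X) ^ 3 + DT (FF K 2) by rw [DT]; ring))
    rw [e1, e2, Point.some.injEq]
    constructor
    · rw [RingHom.coe_coe, map_mul, map_neg, map_one, mul_one, map_neg, hX]
    · rw [RingHom.coe_coe, map_mul, map_one, mul_one, hX]
  obtain ⟨x, y, hn, a, b, hm, hb, hab, hx, hdeg⟩ := chain h2' h3' j
  have hm2 : mapPt (Dl K) (theta K) (theta K (Dl K)) rfl ((2 ^ (j + 2)) • sg h2 h3) =
      mapPt (DT (FF K 2)) (Ψ : RatFunc (FF K 2) →+* RatFunc (FF K 2)) (theta K (Dl K)) hD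
        (.some x y hn) := by
    rw [map_nsmul, hsg, ← map_nsmul, hm]
  obtain ⟨n3, e3⟩ := mapPt_some (D := DT (FF K 2))
      (φ := (Ψ : RatFunc (FF K 2) →+* RatFunc (FF K 2))) (D' := theta K (Dl K)) (hD := hD) hn
  rw [e3] at hm2
  rcases hB with h0 | ⟨X, Y, hN, hXY, hX1, hY1⟩
  · rw [h0, map_zero] at hm2
    exact absurd hm2.symm (Point.some_ne_zero _)
  · rw [hXY] at hm2
    obtain ⟨n4, e4⟩ := mapPt_some (D := Dl K) (φ := theta K) (D' := theta K (Dl K)) (hD := rfl) hN
    rw [e4, Point.some.injEq] at hm2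
    have h5 : theta K X = Ψ x := hm2.1
    calc 3 + 3 * 4 ^ j ≤ max a.natDegree b.natDegree := hdeg
      _ ≤ rht x := by rw [hx]; exact le_rht_div a b hb hab
      _ ≤ rht (Ψ x) := hΨ x
      _ = rht (theta K X) := by rw [h5]
      _ ≤ B := rht_theta hX1

end Pool.Agent.Helper9K9.DG
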