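import Pool.Agent.Helper9K9.DG.Crv

/-!
# Heights of the multiples `2 ^ j σ` over the field of rational functions in one variable
-/

set_option autoImplicit false

namespace Pool.Agent.Helper9K9.DG

open WeierstrassCurve.Affine Polynomial

universe u

variable {k : Type u} [Field k]

/-- the polynomial `X ^ 2 (1 + X)` -/
noncomputable def Dp (k : Type u) [Field k] : k[X] := X ^ 2 * (1 + X)

/-- the rational function `X ^ 2 (1 + X)` -/
noncomputable def DT (k : Type u) [Field k] : RatFunc k := RatFunc.X ^ 2 * (1 + RatFunc.X)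

lemma DT_eq : DT k = algebraMap k[X] (RatFunc k) (Dp k) := by
  simp [DT, Dp, RatFunc.algebraMap_X]

lemma one_add_X_ne : (1 + X : k[X]) ≠ 0 := by
  have : (1 + X : k[X]) = X + C 1 := by rw [C_1]; ring
  rw [this]
  exact X_add_C_ne_zero 1

lemma Dp_ne : Dp k ≠ 0 := mul_ne_zero (pow_ne_zero _ X_ne_zero) one_add_X_ne

lemma natDegree_one_add_X : (1 + X : k[X]).natDegree = 1 := by
  have : (1 + X : k[X]) = X + C 1 := by rw [C_1]; ring
  rw [this]
  exact natDegree_X_add_C 1

lemma natDegree_Dp : (Dp k).natDegree = 3 := by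
  rw [Dp, natDegree_mul (pow_ne_zero _ X_ne_zero) one_add_X_ne, natDegree_X_pow,
    natDegree_one_add_X]

lemma cube_poly (a b : k[X]) (hb : b ≠ 0) : a ^ 3 + Dp k * b ^ 3 ≠ 0 := by
  intro h
  have h1 : a ^ 3 = - (Dp k * b ^ 3) := by linear_combination h
  have hr : (- (Dp k * b ^ 3)) ≠ 0 := neg_ne_zero.mpr (mul_ne_zero Dp_ne (pow_ne_zero _ hb))
  have ha : a ≠ 0 := by
    rintro rfl
    apply hr
    rw [← h1]
    simp
  have hm : ∀ p : k[X], p ≠ 0 → (p ^ 3).rootMultiplicity (-1) = 3 * p.rootMultiplicity (-1) := by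
    intro p hp
    rw [pow_succ, pow_two, rootMultiplicity_mul (mul_ne_zero (mul_ne_zero hp hp) hp),
      rootMultiplicity_mul (mul_ne_zero hp hp)]
    ring
  have h2 : (- (Dp k * b ^ 3)).rootMultiplicity (-1) = 1 + 3 * b.rootMultiplicity (-1) := by
    have e1 : (- (Dp k * b ^ 3)) = (C (-1) * X ^ 2) * ((X - C (-1)) * b ^ 3) := by
      simp only [Dp, map_neg, C_1]
      ring
    have hX : (X - C (-1) : k[X]) ≠ 0 := X_sub_C_ne_zero _
    have hb3 : b ^ 3 ≠ 0 := pow_ne_zero _ hb
    rw [e1] at hr ⊢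
    rw [rootMultiplicity_mul hr, rootMultiplicity_mul (mul_ne_zero hX hb3), hm b hb,
      rootMultiplicity_X_sub_C_self, rootMultiplicity_eq_zero, zero_add]
    simp
  rw [← h1, hm a ha] at h2
  omega

lemma cube_ne (x : RatFunc k) : x ^ 3 + DT k ≠ 0 := by
  intro h
  have hd : x.denom ≠ 0 := x.denom_ne_zero
  have hd' : algebraMap k[X] (RatFunc k) x.denom ≠ 0 := RatFunc.algebraMap_ne_zero hd
  apply cube_poly x.num x.denom hd
  apply RatFunc.algebraMap_injective k
  rw [map_zero, map_add, map_mul, map_pow, map_pow, ← DT_eq]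
  have h1 := RatFunc.num_div_denom x
  have h2 : algebraMap k[X] (RatFunc k) x.num = x * algebraMap k[X] (RatFunc k) x.denom := by
    rw [eq_comm, ← eq_div_iff hd', h1]
  rw [h2]
  linear_combination (algebraMap k[X] (RatFunc k) x.denom) ^ 3 * h

/-- one duplication, for coprime numerators and denominators -/
lemma dup_step (h2 : (2 : k) ≠ 0) (h3 : (3 : k) ≠ 0) (a b : k[X]) (hb : b ≠ 0)
    (hab : IsCoprime a b) (h : ℕ) (hh : h ≤ max a.natDegree b.natDegree) :
    ∃ a' b' : k[X], b' ≠ 0 ∧ IsCoprime a' b' ∧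
      4 * h ≤ max a'.natDegree b'.natDegree + 9 ∧
      ∃ g : k[X], g ≠ 0 ∧ a * (a ^ 3 - 8 * Dp k * b ^ 3) = g * a' ∧
        4 * b * (a ^ 3 + Dp k * b ^ 3) = g * b' := by
  set F1 := a * (a ^ 3 - 8 * Dp k * b ^ 3) with hF1
  set F2 := 4 * b * (a ^ 3 + Dp k * b ^ 3) with hF2
  have h4 : (4 : k[X]) ≠ 0 := by
    have : (4 : k[X]) = C (2 * 2) := by
      rw [C_mul, map_ofNat]; norm_num
    rw [this]
    exact C_ne_zero.mpr (mul_ne_zero h2 h2)
  have hF2ne : F2 ≠ 0 := mul_ne_zero (mul_ne_zero h4 hb) (cube_poly a b hb)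
  classical
  let g := EuclideanDomain.gcd F1 F2
  have hg0 : g ≠ 0 := by
    intro h0
    have := EuclideanDomain.gcd_eq_zero_iff.mp h0
    exact hF2ne this.2
  obtain ⟨a', ha'⟩ := EuclideanDomain.gcd_dvd_left F1 F2
  obtain ⟨b', hb'⟩ := EuclideanDomain.gcd_dvd_right F1 F2
  have hb'0 : b' ≠ 0 := by
    rintro rfl
    rw [mul_zero] at hb'
    exact hF2ne hb'
  have hcop : IsCoprime a' b' := by
    refine ⟨EuclideanDomain.gcdA F1 F2, EuclideanDomain.gcdB F1 F2, ?_⟩
    apply mul_left_cancel₀ hg0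
    have hbez := EuclideanDomain.gcd_eq_gcd_ab F1 F2
    calc g * (EuclideanDomain.gcdA F1 F2 * a' + EuclideanDomain.gcdB F1 F2 * b')
        = (g * a') * EuclideanDomain.gcdA F1 F2 + (g * b') * EuclideanDomain.gcdB F1 F2 := by ring
      _ = F1 * EuclideanDomain.gcdA F1 F2 + F2 * EuclideanDomain.gcdB F1 F2 := by
          rw [← ha', ← hb']
      _ = g * 1 := by rw [← hbez, mul_one]
  have id1 : C 108 * Dp k ^ 2 * b ^ 7 = 12 * a ^ 2 * b * F1 - (3 * a ^ 3 - 27 * Dp k * b ^ 3) * F2 := by
    rw [hF1, hF2]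
    have : (C 108 : k[X]) = 108 := by rw [map_ofNat]
    rw [this]
    ring
  have id2 : C 108 * Dp k ^ 2 * a ^ 7 =
      (108 * Dp k ^ 2 * a ^ 3 + 96 * Dp k ^ 3 * b ^ 3) * F1 + 192 * Dp k ^ 3 * a * b ^ 2 * F2 := by
    rw [hF1, hF2]
    have : (C 108 : k[X]) = 108 := by rw [map_ofNat]
    rw [this]
    ring
  have h108 : (108 : k) ≠ 0 := by
    have : (108 : k) = 2 ^ 2 * 3 ^ 3 := by norm_num
    rw [this]
    exact mul_ne_zero (pow_ne_zero _ h2) (pow_ne_zero _ h3)
  have hC : (C 108 : k[X]) ≠ 0 := C_ne_zero.mpr h108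
  have hCD : C 108 * Dp k ^ 2 ≠ 0 := mul_ne_zero hC (pow_ne_zero _ Dp_ne)
  have hdegCD : (C 108 * Dp k ^ 2).natDegree = 6 := by
    rw [natDegree_C_mul h108, natDegree_pow, natDegree_Dp]
  have hgdvd : g ∣ C 108 * Dp k ^ 2 := by
    obtain ⟨u, v, huv⟩ := (hab.pow (m := 7) (n := 7))
    have e : C 108 * Dp k ^ 2 = u * (C 108 * Dp k ^ 2 * a ^ 7) + v * (C 108 * Dp k ^ 2 * b ^ 7) := by
      linear_combination (-(C 108 * Dp k ^ 2)) * huv
    rw [e, id1, id2]
    have g1 : g ∣ F1 := EuclideanDomain.gcd_dvd_left F1 F2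
    have g2 : g ∣ F2 := EuclideanDomain.gcd_dvd_right F1 F2
    apply dvd_add
    · exact Dvd.dvd.mul_left (dvd_add (Dvd.dvd.mul_left g1 _) (Dvd.dvd.mul_left g2 _)) _
    · exact Dvd.dvd.mul_left (dvd_sub (Dvd.dvd.mul_left g1 _) (Dvd.dvd.mul_left g2 _)) _
  have hgdeg : g.natDegree ≤ 6 := hdegCD ▸ natDegree_le_of_dvd hgdvd hCD
  set M := max F1.natDegree F2.natDegree with hM
  have hF1M : F1.natDegree ≤ M := le_max_left _ _
  have hF2M : F2.natDegree ≤ M := le_max_right _ _
  -- the maximal degree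
  have hMh : 4 * h ≤ M + 3 := by
    rcases Nat.eq_zero_or_pos h with h0 | h0
    · omega
    set m := max a.natDegree b.natDegree with hm
    have ham : a.natDegree ≤ m := le_max_left _ _
    have hbm : b.natDegree ≤ m := le_max_right _ _
    have hD3 : (Dp k).natDegree = 3 := natDegree_Dp
    have n1 : ∀ c : ℕ, ((c : k[X])).natDegree = 0 := fun c => natDegree_natCast c
    have key : 4 * m ≤ M + 3 := by
      rcases le_total b.natDegree a.natDegree with hle | hle
      · have hma : m = a.natDegree := max_eq_left hle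
        have ha0 : a ≠ 0 := by
          rintro rfl
          simp at hma
          omega
        have e1 : (C 108 * Dp k ^ 2 * a ^ 7).natDegree = 6 + 7 * m := by
          rw [natDegree_mul hCD (pow_ne_zero _ ha0), hdegCD, natDegree_pow, hma]
        have e2 : (C 108 * Dp k ^ 2 * a ^ 7).natDegree ≤ 9 + 3 * m + M := by
          rw [id2]
          refine (natDegree_add_le _ _).trans (max_le ?_ ?_)
          · refine natDegree_mul_le.trans (add_le_add ?_ hF1M)
            refine (natDegree_add_le _ _).trans (max_le ?_ ?_)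
            · have t1 : (108 * Dp k ^ 2 * a ^ 3).natDegree ≤ (108 * Dp k ^ 2 : k[X]).natDegree + (a ^ 3).natDegree := natDegree_mul_le
              have t2 : (108 * Dp k ^ 2 : k[X]).natDegree ≤ ((108 : ℕ) : k[X]).natDegree + (Dp k ^ 2).natDegree := natDegree_mul_le
              rw [n1, natDegree_pow, hD3] at t2
              rw [natDegree_pow] at t1
              omega
            · have t1 : (96 * Dp k ^ 3 * b ^ 3).natDegree ≤ (96 * Dp k ^ 3 : k[X]).natDegree + (b ^ 3).natDegree := natDegree_mul_le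
              have t2 : (96 * Dp k ^ 3 : k[X]).natDegree ≤ ((96 : ℕ) : k[X]).natDegree + (Dp k ^ 3).natDegree := natDegree_mul_le
              rw [n1, natDegree_pow, hD3] at t2
              rw [natDegree_pow] at t1
              omega
          · refine natDegree_mul_le.trans (add_le_add ?_ hF2M)
            have t1 : (192 * Dp k ^ 3 * a * b ^ 2).natDegree ≤ (192 * Dp k ^ 3 * a : k[X]).natDegree + (b ^ 2).natDegree := natDegree_mul_le
            have t2 : (192 * Dp k ^ 3 * a).natDegree ≤ (192 * Dp k ^ 3 : k[X]).natDegree + a.natDegree := natDegree_mul_le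
            have t3 : (192 * Dp k ^ 3 : k[X]).natDegree ≤ ((192 : ℕ) : k[X]).natDegree + (Dp k ^ 3).natDegree := natDegree_mul_le
            rw [n1, natDegree_pow, hD3] at t3
            rw [natDegree_pow] at t1
            omega
        omega
      · have hmb : m = b.natDegree := max_eq_right hle
        have e1 : (C 108 * Dp k ^ 2 * b ^ 7).natDegree = 6 + 7 * m := by
          rw [natDegree_mul hCD (pow_ne_zero _ hb), hdegCD, natDegree_pow, hmb]
        have e2 : (C 108 * Dp k ^ 2 * b ^ 7).natDegree ≤ 3 + 3 * m + M := by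
          rw [id1]
          refine (natDegree_sub_le _ _).trans (max_le ?_ ?_)
          · refine natDegree_mul_le.trans (add_le_add ?_ hF1M)
            have t1 : (12 * a ^ 2 * b).natDegree ≤ (12 * a ^ 2 : k[X]).natDegree + b.natDegree := natDegree_mul_le
            have t2 : (12 * a ^ 2 : k[X]).natDegree ≤ ((12 : ℕ) : k[X]).natDegree + (a ^ 2).natDegree := natDegree_mul_le
            rw [n1, natDegree_pow] at t2
            omega
          · refine natDegree_mul_le.trans (add_le_add ?_ hF2M)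
            refine (natDegree_sub_le _ _).trans (max_le ?_ ?_)
            · have t2 : (3 * a ^ 3 : k[X]).natDegree ≤ ((3 : ℕ) : k[X]).natDegree + (a ^ 3).natDegree := natDegree_mul_le
              rw [n1, natDegree_pow] at t2
              omega
            · have t1 : (27 * Dp k * b ^ 3).natDegree ≤ (27 * Dp k : k[X]).natDegree + (b ^ 3).natDegree := natDegree_mul_le
              have t2 : (27 * Dp k : k[X]).natDegree ≤ ((27 : ℕ) : k[X]).natDegree + (Dp k).natDegree := natDegree_mul_le
              rw [n1, hD3] at t2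
              rw [natDegree_pow] at t1
              omega
        omega
    omega
  refine ⟨a', b', hb'0, hcop, ?_, g, hg0, ha', hb'⟩
  have hF2deg : F2.natDegree = g.natDegree + b'.natDegree := by
    conv_lhs => rw [hb']
    exact natDegree_mul hg0 hb'0
  have hF1deg : F1.natDegree ≤ g.natDegree + a'.natDegree := by
    conv_lhs => rw [ha']
    exact natDegree_mul_le
  have : M ≤ g.natDegree + max a'.natDegree b'.natDegree := by
    rw [hM]
    apply max_le
    · exact hF1deg.trans (by have := le_max_left a'.natDegree b'.natDegree; omega)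
    · rw [hF2deg]
      have := le_max_right a'.natDegree b'.natDegree
      omega
  omega

end Pool.Agent.Helper9K9.DG
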